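import Pool.Agent.Helper90.PZ.Rank

/-!
# Matrices of rank three with prescribed zeros and configurations of points and lines
-/

set_option autoImplicit false

namespace Pool.Agent.Helper90.PZ

open Matrix Pool.Agent.E8helper17.FZ

section
variable {Pt Ln : Type} [Fintype Pt] [Fintype Ln]

/-- The data of a configuration of points and lines (vectors and linear forms in three-space): which
coordinates of the points and of the lines are zero, or not zero, and which incidences are required. -/
structure Shape (Pt Ln : Type) where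
  zP : Pt → Fin 3 → Prop
  nP : Pt → Fin 3 → Prop
  zL : Ln → Fin 3 → Prop
  nL : Ln → Fin 3 → Prop
  inc : Pt → Ln → Prop

/-- the configurations of a given shape -/
def IsCfg (S : Shape Pt Ln) {K : Type} [Field K] (p : Pt → Fin 3 → K) (l : Ln → Fin 3 → K) : Prop :=
  (∀ i c, S.zP i c → p i c = 0) ∧ (∀ i c, S.nP i c → p i c ≠ 0) ∧
  (∀ j c, S.zL j c → l j c = 0) ∧ (∀ j c, S.nL j c → l j c ≠ 0) ∧
  ∀ i j, S.inc i j → ∑ c, p i c * l j c = 0

/-- the number of the configurations -/
noncomputable def cfgN (S : Shape Pt Ln) (K : Type) [Field K] : ℕ :=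
  Nat.card {x : (Pt → Fin 3 → K) × (Ln → Fin 3 → K) // IsCfg S x.1 x.2}

def Shape.Z (S : Shape Pt Ln) : Fin 3 ⊕ Pt → Fin 3 ⊕ Ln → Prop
  | .inl i, .inl j => i ≠ j
  | .inr i, .inl c => S.zP i c
  | .inl c, .inr j => S.zL j c
  | .inr i, .inr j => S.inc i j

def Shape.T (S : Shape Pt Ln) : Fin 3 ⊕ Pt → Fin 3 ⊕ Ln → Prop
  | .inl i, .inl j => i = j
  | .inr i, .inl c => S.nP i c
  | .inl c, .inr j => S.nL j c
  | .inr _, .inr _ => False

omit [Fintype Pt] in
theorem rank_three_entry {K : Type} [Field K] (A : Matrix (Fin 3 ⊕ Pt) (Fin 3 ⊕ Ln) K) (t : Fin 3 → K)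
    (ht : ∀ c, t c ≠ 0) (hA : A.rank = 3) (h11 : ∀ i j, A (Sum.inl i) (Sum.inl j) = diagonal t i j)
    (i : Pt) (j : Ln) : A (Sum.inr i) (Sum.inr j) =
      ∑ c, A (Sum.inr i) (Sum.inl c) / t c * A (Sum.inl c) (Sum.inr j) := by
  classical
  by_contra hne
  let B : Matrix (Fin 3 ⊕ Unit) (Fin 3 ⊕ Unit) K := A.submatrix (Sum.map id fun _ => i)
    (Sum.map id fun _ => j)
  have hB : B = fromBlocks (diagonal t) (Matrix.of fun c _ => A (Sum.inl c) (Sum.inr j))
      (Matrix.of fun _ c => A (Sum.inr i) (Sum.inl c))
      (Matrix.of fun _ _ => A (Sum.inr i) (Sum.inr j)) := by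
    ext (a | a) (b | b)
    · exact h11 a b
    · rfl
    · rfl
    · rfl
  have hdt : (diagonal t).det ≠ 0 := by
    rw [det_diagonal]
    exact Finset.prod_ne_zero_iff.2 fun c _ => ht c
  have hdet : B.det ≠ 0 := by
    let _ : Invertible (diagonal t) := invertibleOfIsUnitDet _ (isUnit_iff_ne_zero.2 hdt)
    rw [hB, det_fromBlocks₁₁]
    refine mul_ne_zero hdt ?_
    rw [det_unique]
    intro h0
    apply hne
    have hinv : ⅟ (diagonal t) = diagonal (fun c => (t c)⁻¹) := by
      rw [invOf_eq_nonsing_inv]
      apply inv_eq_right_inv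
      rw [diagonal_mul_diagonal, ← diagonal_one]
      congr 1
      ext c
      exact mul_inv_cancel₀ (ht c)
    rw [hinv, Matrix.sub_apply, sub_eq_zero, of_apply, mul_apply] at h0
    refine h0.trans (Finset.sum_congr rfl fun c _ => ?_)
    rw [mul_diagonal, of_apply, of_apply, div_eq_mul_inv]
  have h4 : B.rank = 4 := by
    rw [rank_of_det_ne_zero hdet]
    simp
  have h5 : B.rank ≤ A.rank := rank_submatrix_le _ _ _
  omega

omit [Fintype Pt] in
theorem rank_three_of {K : Type} [Field K] (t : Fin 3 → K) (ht : ∀ c, t c ≠ 0) (p : Pt → Fin 3 → K)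
    (l : Ln → Fin 3 → K) :
    (fromBlocks (diagonal t) (Matrix.of fun c j => l j c) (Matrix.of fun i c => p i c * t c)
      (Matrix.of fun i j => ∑ c, p i c * l j c)).rank = 3 := by
  classical
  have hdt : (diagonal t).det ≠ 0 := by
    rw [det_diagonal]
    exact Finset.prod_ne_zero_iff.2 fun c _ => ht c
  apply le_antisymm
  · have : fromBlocks (diagonal t) (Matrix.of fun c j => l j c) (Matrix.of fun i c => p i c * t c)
      (Matrix.of fun i j => ∑ c, p i c * l j c) =
      fromRows (1 : Matrix (Fin 3) (Fin 3) K) (Matrix.of fun i c => p i c) *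
        fromCols (diagonal t) (Matrix.of fun c j => l j c) := by
      rw [fromRows_mul, mul_fromCols, mul_fromCols]
      ext (a | a) (b | b)
      · simp
      · simp
      · simp
      · simp [mul_apply]
    rw [this]
    refine (rank_mul_le_left _ _).trans ?_
    have := (fromRows (1 : Matrix (Fin 3) (Fin 3) K) (Matrix.of fun (i : Pt) c => p i c)).rank_le_card_width
    simpa using this
  · have h := rank_submatrix_le (fromBlocks (diagonal t) (Matrix.of fun c j => l j c)
      (Matrix.of fun i c => p i c * t c) (Matrix.of fun i j => ∑ c, p i c * l j c)) Sum.inl Sum.inl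
    have h2 : (fromBlocks (diagonal t) (Matrix.of fun c j => l j c)
      (Matrix.of fun i c => p i c * t c)
      (Matrix.of fun i j => ∑ c, p i c * l j c)).submatrix Sum.inl Sum.inl = diagonal t := by
      ext a b; rfl
    rw [h2, rank_of_det_ne_zero hdt] at h
    simpa using h

theorem cfg_count (S : Shape Pt Ln) (K : Type) [Field K] [Finite K] :
    (znN S.Z S.T 3 K : ℤ) = ((Nat.card K : ℤ) - 1) ^ 3 * (cfgN S K : ℤ) := by
  classical
  have := Fintype.ofFinite K
  have e : {A : Matrix (Fin 3 ⊕ Pt) (Fin 3 ⊕ Ln) K // A.rank = 3 ∧ (∀ i j, S.Z i j → A i j = 0) ∧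
      ∀ i j, S.T i j → A i j ≠ 0} ≃
      (Fin 3 → Kˣ) × {x : (Pt → Fin 3 → K) × (Ln → Fin 3 → K) // IsCfg S x.1 x.2} :=
    { toFun := fun A => (fun c => Units.mk0 (A.1 (Sum.inl c) (Sum.inl c)) (A.2.2.2 _ _ rfl),
        ⟨(fun i c => A.1 (Sum.inr i) (Sum.inl c) / A.1 (Sum.inl c) (Sum.inl c),
          fun j c => A.1 (Sum.inl c) (Sum.inr j)), by
          obtain ⟨A, hr, hz, hn⟩ := A
          have ht : ∀ c, A (Sum.inl c) (Sum.inl c) ≠ 0 := fun c => hn _ _ rfl
          refine ⟨fun i c h => ?_, fun i c h => ?_, fun j c h => hz (Sum.inl c) (Sum.inr j) h,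
            fun j c h => hn (Sum.inl c) (Sum.inr j) h, fun i j h => ?_⟩
          · show A (Sum.inr i) (Sum.inl c) / _ = 0
            rw [hz (Sum.inr i) (Sum.inl c) h, zero_div]
          · exact div_ne_zero (hn (Sum.inr i) (Sum.inl c) h) (ht c)
          · have h1 := rank_three_entry A (fun c => A (Sum.inl c) (Sum.inl c)) ht hr (by
              intro a b
              by_cases hab : a = b
              · subst hab; rw [diagonal_apply_eq]
              · rw [diagonal_apply_ne _ hab]
                exact hz _ _ hab) i j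
            show ∑ c, A (Sum.inr i) (Sum.inl c) / A (Sum.inl c) (Sum.inl c) *
              A (Sum.inl c) (Sum.inr j) = 0
            rw [← h1]
            exact hz (Sum.inr i) (Sum.inr j) h⟩)
      invFun := fun x => ⟨fromBlocks (diagonal fun c => (x.1 c : K))
          (Matrix.of fun c j => x.2.1.2 j c) (Matrix.of fun i c => x.2.1.1 i c * (x.1 c : K))
          (Matrix.of fun i j => ∑ c, x.2.1.1 i c * x.2.1.2 j c), by
          obtain ⟨t, ⟨p, l⟩, h1, h2, h3, h4, h5⟩ := x
          refine ⟨rank_three_of _ (fun c => (t c).ne_zero) p l, ?_, ?_⟩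
          · rintro (a | a) (b | b) h
            · exact diagonal_apply_ne (fun c => (t c : K)) h
            · exact h3 b a h
            · have h1' : p a b = 0 := h1 a b h
              show p a b * (t b : K) = 0
              rw [h1', zero_mul]
            · exact h5 a b h
          · rintro (a | a) (b | b) h
            · have hab : a = b := h
              subst hab
              show diagonal (fun c => (t c : K)) a a ≠ 0
              rw [diagonal_apply_eq]
              exact (t a).ne_zero
            · exact h4 b a h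
            · exact mul_ne_zero (h2 a b h) (t b).ne_zero
            · exact h.elim⟩
      left_inv := fun A => by
        obtain ⟨A, hr, hz, hn⟩ := A
        have ht : ∀ c, A (Sum.inl c) (Sum.inl c) ≠ 0 := fun c => hn _ _ rfl
        apply Subtype.ext
        ext (a | a) (b | b)
        · show diagonal (fun c => A (Sum.inl c) (Sum.inl c)) a b = A (Sum.inl a) (Sum.inl b)
          by_cases hab : a = b
          · subst hab; rw [diagonal_apply_eq]
          · rw [diagonal_apply_ne _ hab]
            exact (hz (Sum.inl a) (Sum.inl b) hab).symm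
        · rfl
        · show A (Sum.inr a) (Sum.inl b) / A (Sum.inl b) (Sum.inl b) * A (Sum.inl b) (Sum.inl b) = _
          rw [div_mul_cancel₀ _ (ht b)]
        · show ∑ c, A (Sum.inr a) (Sum.inl c) / A (Sum.inl c) (Sum.inl c) *
              A (Sum.inl c) (Sum.inr b) = A (Sum.inr a) (Sum.inr b)
          rw [rank_three_entry A (fun c => A (Sum.inl c) (Sum.inl c)) ht hr (by
              intro a b
              by_cases hab : a = b
              · subst hab; rw [diagonal_apply_eq]
              · rw [diagonal_apply_ne _ hab]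
                exact hz _ _ hab) a b]
      right_inv := fun x => by
        obtain ⟨t, ⟨p, l⟩, h⟩ := x
        refine Prod.ext ?_ (Subtype.ext (Prod.ext ?_ ?_))
        · ext c
          show diagonal (fun c => (t c : K)) c c = (t c : K)
          rw [diagonal_apply_eq]
        · ext i c
          show p i c * (t c : K) / diagonal (fun c => (t c : K)) c c = p i c
          rw [diagonal_apply_eq, mul_div_cancel_right₀ _ (t c).ne_zero]
        · rfl }
  unfold znN cfgN
  rw [Nat.card_congr e, Nat.card_prod, Nat.card_fun, Nat.card_units, Nat.card_eq_fintype_card (α := Fin 3),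
    Fintype.card_fin]
  push_cast
  rw [Nat.cast_sub Nat.card_pos]
  push_cast
  rfl

end

end Pool.Agent.Helper90.PZ
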