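import Pool.Agent.Helper90.PZ.Enc

/-!
# Polynomials as outputs of systems of elementary equations
-/

set_option autoImplicit false

namespace Pool.Agent.Helper90.PZ

open MvPolynomial Pool.Agent.E8helper17.FZ

/-- renaming the variables -/
def Sys.map {V W : Type} (φ : V → W) (E : Sys V) : Sys W where
  O := E.O
  A := E.A
  M := E.M
  o := φ ∘ E.o
  a1 := φ ∘ E.a1
  a2 := φ ∘ E.a2
  a3 := φ ∘ E.a3
  m1 := φ ∘ E.m1
  m2 := φ ∘ E.m2
  m3 := φ ∘ E.m3

theorem Sys.sat_map {V W K : Type} [Field K] (φ : V → W) (E : Sys V) (x : W → K) :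
    (E.map φ).Sat x ↔ E.Sat (x ∘ φ) := Iff.rfl

/-- the union of two systems -/
def Sys.union {V : Type} (E F : Sys V) : Sys V where
  O := E.O ⊕ F.O
  A := E.A ⊕ F.A
  M := E.M ⊕ F.M
  o := Sum.elim E.o F.o
  a1 := Sum.elim E.a1 F.a1
  a2 := Sum.elim E.a2 F.a2
  a3 := Sum.elim E.a3 F.a3
  m1 := Sum.elim E.m1 F.m1
  m2 := Sum.elim E.m2 F.m2
  m3 := Sum.elim E.m3 F.m3

theorem Sys.sat_union {V K : Type} [Field K] (E F : Sys V) (x : V → K) :
    (E.union F).Sat x ↔ E.Sat x ∧ F.Sat x := by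
  constructor
  · rintro ⟨h1, h2, h3⟩
    exact ⟨⟨fun i => h1 (.inl i), fun i => h2 (.inl i), fun i => h3 (.inl i)⟩,
      ⟨fun i => h1 (.inr i), fun i => h2 (.inr i), fun i => h3 (.inr i)⟩⟩
  · rintro ⟨⟨h1, h2, h3⟩, h4, h5, h6⟩
    refine ⟨?_, ?_, ?_⟩
    · rintro (i | i)
      · exact h1 i
      · exact h4 i
    · rintro (i | i)
      · exact h2 i
      · exact h5 i
    · rintro (i | i)
      · exact h3 i
      · exact h6 i

/-- `x a = 1` -/
def Sys.one {V : Type} (a : V) : Sys V where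
  O := Unit
  A := Empty
  M := Empty
  o := fun _ => a
  a1 := Empty.elim
  a2 := Empty.elim
  a3 := Empty.elim
  m1 := Empty.elim
  m2 := Empty.elim
  m3 := Empty.elim

theorem Sys.sat_one {V K : Type} [Field K] (a : V) (x : V → K) : (Sys.one a).Sat x ↔ x a = 1 :=
  ⟨fun h => h.1 (), fun h => ⟨fun _ => h, fun i => i.elim, fun i => i.elim⟩⟩

/-- `x a = x b + x c` -/
def Sys.add {V : Type} (a b c : V) : Sys V where
  O := Empty
  A := Unit
  M := Empty
  o := Empty.elim
  a1 := fun _ => a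
  a2 := fun _ => b
  a3 := fun _ => c
  m1 := Empty.elim
  m2 := Empty.elim
  m3 := Empty.elim

theorem Sys.sat_add {V K : Type} [Field K] (a b c : V) (x : V → K) :
    (Sys.add a b c).Sat x ↔ x a = x b + x c :=
  ⟨fun h => h.2.1 (), fun h => ⟨fun i => i.elim, fun _ => h, fun i => i.elim⟩⟩

/-- `x c = x a * x b` -/
def Sys.mul {V : Type} (a b c : V) : Sys V where
  O := Empty
  A := Empty
  M := Unit
  o := Empty.elim
  a1 := Empty.elim
  a2 := Empty.elim
  a3 := Empty.elim
  m1 := fun _ => a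
  m2 := fun _ => b
  m3 := fun _ => c

theorem Sys.sat_mul {V K : Type} [Field K] (a b c : V) (x : V → K) :
    (Sys.mul a b c).Sat x ↔ x c = x a * x b :=
  ⟨fun h => h.2.2 (), fun h => ⟨fun i => i.elim, fun i => i.elim, fun _ => h⟩⟩

/-- a polynomial computed by elementary equations for auxiliary variables -/
def RepS {σ : Type} (f : MvPolynomial σ ℤ) : Prop :=
  ∃ (τ : Type) (_ : Fintype τ) (E : Sys (σ ⊕ τ)) (o : σ ⊕ τ),
    ∀ (K : Type) [Field K] (x : σ → K), ∃ z : τ → K,
      (∀ z' : τ → K, E.Sat (Sum.elim x z') ↔ z' = z) ∧ Sum.elim x z o = aeval x f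

theorem RepS.bin {σ : Type} {f g h : MvPolynomial σ ℤ} (hf : RepS f) (hg : RepS g)
    (gate : ∀ {V : Type}, V → V → V → Sys V) (op : ∀ {K : Type} [Field K], K → K → K)
    (hgate : ∀ {V K : Type} [Field K] (a b t : V) (x : V → K),
      (gate a b t).Sat x ↔ x t = op (x a) (x b))
    (hop : ∀ (K : Type) [Field K] (x : σ → K), aeval x h = op (aeval x f) (aeval x g)) : RepS h := by
  obtain ⟨τ1, _, E1, o1, k1⟩ := hf
  obtain ⟨τ2, _, E2, o2, k2⟩ := hg
  let φ1 : σ ⊕ τ1 → σ ⊕ (τ1 ⊕ τ2 ⊕ Unit) := Sum.map id Sum.inl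
  let φ2 : σ ⊕ τ2 → σ ⊕ (τ1 ⊕ τ2 ⊕ Unit) := Sum.map id (Sum.inr ∘ Sum.inl)
  let t : σ ⊕ (τ1 ⊕ τ2 ⊕ Unit) := Sum.inr (Sum.inr (Sum.inr ()))
  refine ⟨τ1 ⊕ τ2 ⊕ Unit, inferInstance,
    (E1.map φ1).union ((E2.map φ2).union (gate (φ1 o1) (φ2 o2) t)), t, fun K _ x => ?_⟩
  obtain ⟨z1, a1, b1⟩ := k1 K x
  obtain ⟨z2, a2, b2⟩ := k2 K x
  have e1 : ∀ z : τ1 ⊕ τ2 ⊕ Unit → K, Sum.elim x z ∘ φ1 = Sum.elim x (fun i => z (Sum.inl i)) := by
    intro z; ext i; rcases i with i | i <;> rfl
  have e2 : ∀ z : τ1 ⊕ τ2 ⊕ Unit → K,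
      Sum.elim x z ∘ φ2 = Sum.elim x (fun i => z (Sum.inr (Sum.inl i))) := by
    intro z; ext i; rcases i with i | i <;> rfl
  refine ⟨Sum.elim z1 (Sum.elim z2 fun _ => op (aeval x f) (aeval x g)), fun z' => ?_, ?_⟩
  · rw [Sys.sat_union, Sys.sat_union, Sys.sat_map, Sys.sat_map, hgate, e1, e2, a1, a2]
    have f1 : Sum.elim x z' (φ1 o1) = Sum.elim x (fun i => z' (Sum.inl i)) o1 := congrFun (e1 z') o1
    have f2 : Sum.elim x z' (φ2 o2) = Sum.elim x (fun i => z' (Sum.inr (Sum.inl i))) o2 :=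
      congrFun (e2 z') o2
    constructor
    · rintro ⟨h1, h2, h3⟩
      rw [f1, f2, h1, h2, b1, b2] at h3
      ext i
      rcases i with i | i | i
      · exact congrFun h1 i
      · exact congrFun h2 i
      · exact h3
    · intro h0
      have h1 : (fun i => z' (Sum.inl i)) = z1 := by rw [h0]; rfl
      have h2 : (fun i => z' (Sum.inr (Sum.inl i))) = z2 := by rw [h0]; rfl
      refine ⟨h1, h2, ?_⟩
      rw [f1, f2, h1, h2, b1, b2, h0]
      rfl
  · rw [hop]
    rfl

theorem RepS.add {σ : Type} {f g : MvPolynomial σ ℤ} (hf : RepS f) (hg : RepS g) : RepS (f + g) :=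
  hf.bin hg (fun a b t => Sys.add t a b) (fun a b => a + b) (fun a b t x => Sys.sat_add t a b x)
    fun K _ x => map_add _ _ _

theorem RepS.mul {σ : Type} {f g : MvPolynomial σ ℤ} (hf : RepS f) (hg : RepS g) : RepS (f * g) :=
  hf.bin hg (fun a b t => Sys.mul a b t) (fun a b => a * b) (fun a b t x => Sys.sat_mul a b t x)
    fun K _ x => map_mul _ _ _

theorem RepS.sub {σ : Type} {f g : MvPolynomial σ ℤ} (hf : RepS f) (hg : RepS g) : RepS (f - g) :=
  hf.bin hg (fun a b t => Sys.add a b t) (fun a b => a - b) (fun a b t x => by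
    rw [Sys.sat_add]
    constructor
    · intro h; rw [h]; ring
    · intro h; rw [h]; ring) fun K _ x => map_sub _ _ _

theorem RepS.const0 {σ : Type} : RepS (C 0 : MvPolynomial σ ℤ) := by
  refine ⟨Unit, inferInstance, Sys.add (Sum.inr ()) (Sum.inr ()) (Sum.inr ()), Sum.inr (),
    fun K _ x => ⟨fun _ => 0, fun z' => ?_, ?_⟩⟩
  · rw [Sys.sat_add]
    constructor
    · intro h
      ext i
      have h' : z' () = z' () + z' () := h
      have : z' () = 0 := by linear_combination -h'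
      exact this
    · intro h
      subst h
      simp
  · simp

theorem RepS.const1 {σ : Type} : RepS (C 1 : MvPolynomial σ ℤ) := by
  refine ⟨Unit, inferInstance, Sys.one (Sum.inr ()), Sum.inr (),
    fun K _ x => ⟨fun _ => 1, fun z' => ?_, ?_⟩⟩
  · rw [Sys.sat_one]
    constructor
    · intro h
      ext i
      exact h
    · intro h
      subst h
      simp
  · simp

theorem RepS.const {σ : Type} (a : ℤ) : RepS (C a : MvPolynomial σ ℤ) := by
  induction a using Int.induction_on with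
  | zero => exact RepS.const0
  | succ i ih =>
    have := ih.add RepS.const1
    rwa [← C_add] at this
  | pred i ih =>
    have := ih.sub RepS.const1
    rwa [← C_sub] at this

theorem RepS.var {σ : Type} (i : σ) : RepS (X i : MvPolynomial σ ℤ) := by
  refine ⟨Empty, inferInstance, ⟨Empty, Empty, Empty, Empty.elim, Empty.elim, Empty.elim, Empty.elim,
    Empty.elim, Empty.elim, Empty.elim⟩, Sum.inl i, fun K _ x => ⟨Empty.elim, fun z' => ?_, ?_⟩⟩
  · constructor
    · intro _; ext j; exact j.elim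
    · intro _; exact ⟨fun j => j.elim, fun j => j.elim, fun j => j.elim⟩
  · simp

theorem repS_all {σ : Type} (f : MvPolynomial σ ℤ) : RepS f := by
  induction f using MvPolynomial.induction_on with
  | C a => exact RepS.const a
  | add p q hp hq => exact hp.add hq
  | mul_X p i hp => exact hp.mul (RepS.var i)

/-- **All systems of polynomial equations.** -/
theorem all_continue {P : ℕ} {𝒞 : ((K : Type) → [Field K] → ℤ) → Prop} (h𝒞 : ClosedClass P 𝒞)
    (H : ∀ (ι κ : Type) [Fintype ι] [Fintype κ] (Z T : ι → κ → Prop),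
      𝒞 (fun K _ => (znN Z T 3 K : ℤ))) {n r : ℕ} (f : Fin r → MvPolynomial (Fin n) ℤ) :
    𝒞 (fun K _ => (points f K : ℤ)) := by
  classical
  let g : MvPolynomial (Fin n ⊕ Fin r) ℤ := ∑ i, X (Sum.inr i) * rename Sum.inl (f i)
  obtain ⟨τ, _, E, o, hz⟩ := repS_all g
  let ρ := (Fin n ⊕ Fin r) ⊕ τ
  have hpow : ∀ m : ℕ, 𝒞 (fun K _ => (Nat.card K : ℤ) ^ m) := by
    intro m
    have h := sys_continues h𝒞 H (V := Fin m) ⟨Empty, Empty, Empty, Empty.elim, Empty.elim, Empty.elim,
      Empty.elim, Empty.elim, Empty.elim, Empty.elim⟩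
    refine h𝒞.congr h fun K _ _ _ => ?_
    rw [Nat.card_congr (Equiv.subtypeUnivEquiv fun x => ?_), Nat.card_fun,
      Nat.card_eq_fintype_card (α := Fin m), Fintype.card_fin]
    · push_cast; rfl
    · exact ⟨fun j => j.elim, fun j => j.elim, fun j => j.elim⟩
  have hq := sys_continues h𝒞 H (V := ρ) (E.union (Sys.add o o o))
  have hg : 𝒞 (fun K _ => (Nat.card {xy : Fin n ⊕ Fin r → K // aeval xy g = 0} : ℤ)) := by
    refine h𝒞.congr hq fun K _ _ _ => ?_
    congr 1
    refine Nat.card_congr ?_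
    choose z hz1 hz2 using hz K
    have key : ∀ w : ρ → K, (E.union (Sys.add o o o)).Sat w ↔
        (w ∘ Sum.inr = z (w ∘ Sum.inl) ∧ aeval (w ∘ Sum.inl) g = 0) := by
      intro w
      have hw : w = Sum.elim (w ∘ Sum.inl) (w ∘ Sum.inr) := (Sum.elim_comp_inl_inr w).symm
      rw [Sys.sat_union, Sys.sat_add]
      have h1 : E.Sat w ↔ w ∘ Sum.inr = z (w ∘ Sum.inl) := by
        conv_lhs => rw [hw]
        exact hz1 _ _
      rw [h1]
      refine and_congr_right fun k1 => ?_
      rw [← hz2, ← k1, ← hw]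
      constructor
      · intro h; linear_combination -h
      · intro h; rw [h]; ring
    exact
      { toFun := fun w => ⟨w.1 ∘ Sum.inl, ((key w.1).1 w.2).2⟩
        invFun := fun x => ⟨Sum.elim x.1 (z x.1), (key _).2 ⟨rfl, x.2⟩⟩
        left_inv := fun w => by
          apply Subtype.ext
          show Sum.elim (w.1 ∘ Sum.inl) (z (w.1 ∘ Sum.inl)) = w.1
          rw [← ((key w.1).1 w.2).1, Sum.elim_comp_inl_inr]
        right_inv := fun x => by
          apply Subtype.ext
          show Sum.elim x.1 (z x.1) ∘ Sum.inl = x.1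
          rw [Sum.elim_comp_inl] }
  refine h𝒞.of_rel (u := r) (growth_of_le (n := n) ?_)
    (hpow (r + n)) (h𝒞.poly_mul hg Polynomial.X) ?_
  · intro K _ _
    rw [abs_of_nonneg (by positivity)]
    have h1 : points f K ≤ Nat.card (Fin n → K) := Finite.card_subtype_le _
    rw [Nat.card_fun, Nat.card_eq_fintype_card (α := Fin n), Fintype.card_fin] at h1
    exact_mod_cast h1
  · intro K _ _
    have := Fintype.ofFinite K
    have e1 := y_trick (K := K) (X := Fin n → K) (ι := Fin r) (fun x i => aeval x (f i))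
    have e2 : Nat.card {xy : Fin n ⊕ Fin r → K // aeval xy g = 0} =
        Nat.card {z : (Fin n → K) × (Fin r → K) // ∑ i, z.2 i * aeval z.1 (f i) = 0} := by
      refine Nat.card_congr ((Equiv.sumArrowEquivProdArrow (Fin n) (Fin r) K).subtypeEquiv
        fun v => ?_)
      simp only [g, map_sum, map_mul, aeval_X, aeval_rename]
      rfl
    have e3 : Nat.card {x : Fin n → K // (fun i => aeval x (f i)) = 0} = points f K := by
      unfold points
      refine Nat.card_congr (Equiv.subtypeEquivRight fun x => ?_)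
      exact _root_.funext_iff
    rw [Polynomial.eval_X, e2, e1, e3, Nat.card_fun, Nat.card_eq_fintype_card (α := Fin n),
      Fintype.card_fin, Fintype.card_fin]
    push_cast
    ring

end Pool.Agent.Helper90.PZ
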