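import Pool.Agent.Helper90.PZ.Count
import Pool.Graph.R_pool_sql_team_seeded_b677cdb8.E8helper17.FZ.Gen

/-!
# Classes of counting functions closed under the operations used for prescribed zeros
-/

set_option autoImplicit false

namespace Pool.Agent.Helper90.PZ

open Matrix Pool.Agent.E8helper17.FZ

/-- The polynomials `X ^ a * ∏ (X ^ b - 1)`, `b ≥ 1`. -/
inductive Den : Polynomial ℤ → Prop where
  | one : Den 1
  | X : Den Polynomial.X
  | cyc (b : ℕ) (hb : 0 < b) : Den (Polynomial.X ^ b - 1)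
  | mul {p q : Polynomial ℤ} (hp : Den p) (hq : Den q) : Den (p * q)

theorem Den.monic {B : Polynomial ℤ} (h : Den B) : B.Monic := by
  induction h with
  | one => exact Polynomial.monic_one
  | X => exact Polynomial.monic_X
  | cyc b hb =>
    have := Polynomial.monic_X_pow_sub_C (R := ℤ) 1 hb.ne'
    rwa [Polynomial.C_1] at this
  | mul _ _ h1 h2 => exact h1.mul h2

theorem Den.pow {B : Polynomial ℤ} (h : Den B) (n : ℕ) : Den (B ^ n) := by
  induction n with
  | zero => rw [pow_zero]; exact .one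
  | succ n ih => rw [pow_succ]; exact .mul ih h

theorem Den.prod {ι : Type} (s : Finset ι) (B : ι → Polynomial ℤ) (h : ∀ i ∈ s, Den (B i)) :
    Den (∏ i ∈ s, B i) := by
  classical
  induction s using Finset.induction_on with
  | empty => rw [Finset.prod_empty]; exact .one
  | insert a s ha ih =>
    rw [Finset.prod_insert ha]
    exact .mul (h a (Finset.mem_insert_self a s)) (ih fun i hi => h i (Finset.mem_insert_of_mem hi))

theorem Den.form {B : Polynomial ℤ} (h : Den B) :
    ∃ (a t : ℕ) (b : Fin t → ℕ), (∀ j, 0 < b j) ∧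
      B = Polynomial.X ^ a * ∏ j, (Polynomial.X ^ b j - 1) := by
  induction h with
  | one => exact ⟨0, 0, Fin.elim0, fun j => j.elim0, by simp⟩
  | X => exact ⟨1, 0, Fin.elim0, fun j => j.elim0, by simp⟩
  | cyc b hb => exact ⟨0, 1, fun _ => b, fun _ => hb, by simp⟩
  | mul _ _ h1 h2 =>
    obtain ⟨a, t, b, hb, e⟩ := h1
    obtain ⟨a', t', b', hb', e'⟩ := h2
    refine ⟨a + a', t + t', Fin.append b b', fun j => ?_, ?_⟩
    · refine Fin.addCases (fun i => ?_) (fun i => ?_) j
      · rw [Fin.append_left]; exact hb i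
      · rw [Fin.append_right]; exact hb' i
    · rw [e, e', Fin.prod_univ_add, pow_add]
      simp only [Fin.append_left, Fin.append_right]
      ring

/-- A class of functions on finite fields (of characteristic `> P`) which is closed under linear
combinations whose coefficients are polynomials in the number of elements, and under division by
the polynomials `X ^ a * ∏ (X ^ b - 1)`. -/
structure ClosedClass (P : ℕ) (𝒞 : ((K : Type) → [Field K] → ℤ) → Prop) : Prop where
  congr : ∀ {N N' : (K : Type) → [Field K] → ℤ}, 𝒞 N →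
    (∀ (K : Type) [Field K] [Finite K], P < ringChar K → N K = N' K) → 𝒞 N'
  zero : 𝒞 (fun _ _ => 0)
  add : ∀ {N N' : (K : Type) → [Field K] → ℤ}, 𝒞 N → 𝒞 N' → 𝒞 (fun K _ => N K + N' K)
  neg : ∀ {N : (K : Type) → [Field K] → ℤ}, 𝒞 N → 𝒞 (fun K _ => - N K)
  poly_mul : ∀ {N : (K : Type) → [Field K] → ℤ}, 𝒞 N → ∀ A : Polynomial ℤ,
    𝒞 (fun K _ => A.eval (Nat.card K : ℤ) * N K)
  div : ∀ {N : (K : Type) → [Field K] → ℤ}, Growth N → ∀ B : Polynomial ℤ, Den B →
    𝒞 (fun K _ => B.eval (Nat.card K : ℤ) * N K) → 𝒞 N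

variable {P : ℕ} {𝒞 : ((K : Type) → [Field K] → ℤ) → Prop}

theorem ClosedClass.sum (h𝒞 : ClosedClass P 𝒞) {ι : Type} (S : Finset ι)
    {N : ι → (K : Type) → [Field K] → ℤ} (h : ∀ i ∈ S, 𝒞 (N i)) : 𝒞 (fun K _ => ∑ i ∈ S, N i K) := by
  classical
  induction S using Finset.induction_on with
  | empty => simpa using h𝒞.zero
  | insert a S ha ih =>
    refine h𝒞.congr (h𝒞.add (h a (Finset.mem_insert_self a S))
      (ih fun i hi => h i (Finset.mem_insert_of_mem hi))) fun K _ _ _ => ?_
    rw [Finset.sum_insert ha]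

theorem ClosedClass.of_rel (h𝒞 : ClosedClass P 𝒞) {u : ℕ} {N N' A : (K : Type) → [Field K] → ℤ}
    (hN : Growth N) (hA : 𝒞 A) (hN' : 𝒞 N')
    (hrel : ∀ (K : Type) [Field K] [Finite K], N' K = A K +
      ((Nat.card K : ℤ) ^ (u + 1) - (Nat.card K : ℤ) ^ u) * N K) : 𝒞 N := by
  refine h𝒞.div hN (Polynomial.X ^ u * (Polynomial.X ^ 1 - 1)) (.mul (Den.X.pow u) (.cyc 1 one_pos))
    (h𝒞.congr (h𝒞.add hN' (h𝒞.neg hA)) fun K _ _ _ => ?_)
  rw [hrel K]
  simp only [Polynomial.eval_mul, Polynomial.eval_pow, Polynomial.eval_X, Polynomial.eval_sub,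
    Polynomial.eval_one]
  ring

theorem closed_continues (P : ℕ) : ClosedClass P (Continues P) where
  congr h he := continues_congr h he
  zero := continues_zero P
  add h h' := h.add h'
  neg h := h.neg
  poly_mul h A := h.poly_mul A
  div hN B hB h := continues_of_monic hN B hB.monic h

end Pool.Agent.Helper90.PZ
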