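import Mathlib

/-!
# Counting the completions of a matrix of given rank
-/

set_option autoImplicit false

namespace Pool.Agent.Helper90.PZ

open Module Matrix

section
variable {K : Type} [Field K] [Finite K]

/-- the number of linearly independent `d`-tuples in a space of dimension `k` -/
theorem card_indep (W : Type) [AddCommGroup W] [Module K W] [Finite W] [FiniteDimensional K W] (d : ℕ) :
    (Nat.card {s : Fin d → W // LinearIndependent K s} : ℤ) =
      ∏ i ∈ Finset.range d, ((Nat.card K : ℤ) ^ (finrank K W) - (Nat.card K : ℤ) ^ i) := by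
  classical
  have := Fintype.ofFinite K
  by_cases hd : d ≤ finrank K W
  · rw [card_linearIndependent hd, ← Nat.card_eq_fintype_card, Finset.prod_range]
    push_cast
    refine Finset.prod_congr rfl fun i _ => ?_
    rw [Nat.cast_sub]
    · push_cast; rfl
    · exact Nat.pow_le_pow_right Nat.card_pos (i.2.le.trans hd)
  · push Not at hd
    rw [Finset.prod_eq_zero (i := finrank K W) (Finset.mem_range.2 hd) (sub_self _)]
    have : IsEmpty {s : Fin d → W // LinearIndependent K s} := by
      constructor
      rintro ⟨s, hs⟩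
      have := hs.fintype_card_le_finrank
      rw [Fintype.card_fin] at this
      omega
    rw [Nat.card_of_isEmpty]
    rfl

theorem card_hom {V W : Type} [AddCommGroup V] [Module K V] [FiniteDimensional K V] [AddCommGroup W]
    [Module K W] [FiniteDimensional K W] :
    Nat.card (V →ₗ[K] W) = (Nat.card K ^ finrank K W) ^ finrank K V := by
  have : Finite (V →ₗ[K] W) := Module.finite_of_finite K
  rw [Module.natCard_eq_pow_finrank (K := K), finrank_linearMap, mul_comm, pow_mul]

theorem card_inj {V W : Type} [AddCommGroup V] [Module K V] [FiniteDimensional K V] [AddCommGroup W]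
    [Module K W] [Finite W] [FiniteDimensional K W] :
    (Nat.card {g : V →ₗ[K] W // LinearMap.ker g = ⊥} : ℤ) =
        ∏ i ∈ Finset.range (finrank K V), ((Nat.card K : ℤ) ^ (finrank K W) - (Nat.card K : ℤ) ^ i) := by
  rw [← card_indep]
  congr 1
  let b := Module.finBasis K V
  refine Nat.card_congr (((b.constr K).symm.toEquiv).subtypeEquiv fun g => ?_)
  have : (b.constr K).symm g = fun i => g (b i) := rfl
  show _ ↔ LinearIndependent K ((b.constr K).symm g)
  rw [this]
  constructor
  · intro h
    exact b.linearIndependent.map' g h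
  · intro h
    rw [LinearMap.ker_eq_bot']
    intro v hv
    have h2 := (Fintype.linearIndependent_iff.1 h) (fun i => b.repr v i) (by
      have := b.sum_repr v
      have h3 := congrArg g this
      rw [map_sum, hv] at h3
      simpa using h3)
    apply b.repr.injective
    ext i
    simpa using h2 i

/-- the number of linear maps which are injective on a subspace -/
theorem card_inj_on {V W : Type} [AddCommGroup V] [Module K V] [FiniteDimensional K V] [AddCommGroup W]
    [Module K W] [Finite W] [FiniteDimensional K W] (U : Submodule K V) :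
    (Nat.card {g : V →ₗ[K] W // U ⊓ LinearMap.ker g = ⊥} : ℤ) =
      ((Nat.card K : ℤ) ^ (finrank K W)) ^ (finrank K V - finrank K U) *
        ∏ i ∈ Finset.range (finrank K U), ((Nat.card K : ℤ) ^ (finrank K W) - (Nat.card K : ℤ) ^ i) := by
  classical
  obtain ⟨U', hU⟩ := Submodule.exists_isCompl U
  let e := LinearMap.ofIsComplProdEquiv (R₁ := K) (E := V) (F := W) hU
  have key : ∀ g : V →ₗ[K] W, U ⊓ LinearMap.ker g = ⊥ ↔ LinearMap.ker (g.domRestrict U) = ⊥ := by
    intro g
    rw [LinearMap.ker_domRestrict, Submodule.eq_bot_iff, Submodule.eq_bot_iff]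
    constructor
    · intro h x hx
      have := h x.1 ⟨x.2, hx⟩
      exact Subtype.ext this
    · intro h x hx
      have := h ⟨x, hx.1⟩ hx.2
      exact congrArg Subtype.val this
  have h1 : Nat.card {g : V →ₗ[K] W // U ⊓ LinearMap.ker g = ⊥} =
      Nat.card ({g : U →ₗ[K] W // LinearMap.ker g = ⊥} × (U' →ₗ[K] W)) := by
    refine Nat.card_congr ?_
    exact
      { toFun := fun g => (⟨(e.symm g.1).1, (key _).1 g.2⟩, (e.symm g.1).2)
        invFun := fun p => ⟨e (p.1.1, p.2), by
          rw [key]
          have : (e (p.1.1, p.2)).domRestrict U = p.1.1 := by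
            have := e.symm_apply_apply (p.1.1, p.2)
            exact congrArg Prod.fst this
          rw [this]
          exact p.1.2⟩
        left_inv := fun g => Subtype.ext (e.apply_symm_apply g.1)
        right_inv := fun p => by
          have := e.symm_apply_apply (p.1.1, p.2)
          refine Prod.ext (Subtype.ext ?_) ?_
          · show (e.symm (e (p.1.1, p.2))).1 = p.1.1
            rw [this]
          · show (e.symm (e (p.1.1, p.2))).2 = p.2
            rw [this] }
  rw [h1, Nat.card_prod, Nat.cast_mul, card_inj, card_hom]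
  have : finrank K U' = finrank K V - finrank K U := by
    have := Submodule.finrank_add_eq_of_isCompl hU
    omega
  rw [this]
  push_cast
  ring

/-- **Completion by columns.** The number of the matrices `B` with `k` columns such that `(A | B)` has
linearly independent rows. -/
theorem card_cols {ι κ κ' : Type} [Fintype ι] [Fintype κ] [Fintype κ'] (A : Matrix ι κ K) :
    (Nat.card {B : Matrix ι κ' K // LinearIndependent K (fromCols A B).row} : ℤ) =
      ((Nat.card K : ℤ) ^ Fintype.card κ') ^ A.rank *
        ∏ i ∈ Finset.range (Fintype.card ι - A.rank),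
          ((Nat.card K : ℤ) ^ Fintype.card κ' - (Nat.card K : ℤ) ^ i) := by
  classical
  let U := LinearMap.ker (A.vecMulLinear)
  have hU : finrank K U = Fintype.card ι - A.rank := by
    have h1 := A.vecMulLinear.finrank_range_add_finrank_ker
    have h2 : finrank K (LinearMap.range A.vecMulLinear) = A.rank := by
      rw [← rank_transpose A, rank, Matrix.mulVecLin_transpose]
    rw [h2, finrank_fintype_fun_eq_card] at h1
    show finrank K (LinearMap.ker A.vecMulLinear) = _
    omega
  have hr : A.rank ≤ Fintype.card ι := A.rank_le_card_height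
  have h := card_inj_on (K := K) (W := κ' → K) U
  rw [hU, finrank_fintype_fun_eq_card, finrank_fintype_fun_eq_card, Nat.sub_sub_self hr] at h
  rw [← h]
  congr 1
  let e : Matrix ι κ' K ≃ ((ι → K) →ₗ[K] (κ' → K)) :=
    (Matrix.transposeAddEquiv _ _ _).toEquiv.trans (Matrix.toLin'.toEquiv)
  refine Nat.card_congr (e.subtypeEquiv fun B => ?_)
  have he : ∀ y, e B y = y ᵥ* B := by
    intro y
    show toLin' Bᵀ y = _
    rw [toLin'_apply, mulVec_transpose]
  rw [← vecMul_injective_iff]
  have hb : ∀ y : ι → K, y ᵥ* fromCols A B = Sum.elim (y ᵥ* A) (y ᵥ* B) := by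
    intro y
    rw [vecMul_fromCols]
  constructor
  · intro hinj
    rw [Submodule.eq_bot_iff]
    rintro y ⟨h1, h2⟩
    apply hinj
    have h1' : y ᵥ* A = 0 := h1
    have h2' : y ᵥ* B = 0 := by rw [← he]; exact h2
    show y ᵥ* fromCols A B = 0 ᵥ* fromCols A B
    rw [hb, hb, h1', h2', zero_vecMul, zero_vecMul]
  · intro h0 y z hyz
    have hyz' : y ᵥ* fromCols A B = z ᵥ* fromCols A B := hyz
    have h3 : (y - z) ∈ U ⊓ LinearMap.ker (e B) := by
      rw [hb, hb] at hyz'
      have a1 : y ᵥ* A = z ᵥ* A := by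
        ext j; exact congrFun hyz' (Sum.inl j)
      have a2 : y ᵥ* B = z ᵥ* B := by
        ext j; exact congrFun hyz' (Sum.inr j)
      refine ⟨?_, ?_⟩
      · show (y - z) ᵥ* A = 0
        rw [sub_vecMul, a1, sub_self]
      · show e B (y - z) = 0
        rw [he, sub_vecMul, a2, sub_self]
    rw [h0] at h3
    exact sub_eq_zero.1 h3

theorem card_sigma_const {X Y : Type} [Finite X] [Finite Y] (p : X → Prop) (R : X → Y → Prop) (c : ℤ)
    (hR : ∀ x y, R x y → p x) (hc : ∀ x, p x → (Nat.card {y : Y // R x y} : ℤ) = c) :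
    (Nat.card {z : X × Y // R z.1 z.2} : ℤ) = c * Nat.card {x : X // p x} := by
  classical
  have := Fintype.ofFinite X
  have e : {z : X × Y // R z.1 z.2} ≃ Σ x : {x : X // p x}, {y : Y // R x.1 y} :=
    { toFun := fun z => ⟨⟨z.1.1, hR _ _ z.2⟩, ⟨z.1.2, z.2⟩⟩
      invFun := fun w => ⟨(w.1.1, w.2.1), w.2.2⟩
      left_inv := fun _ => rfl
      right_inv := fun _ => rfl }
  rw [Nat.card_congr e, Nat.card_sigma, Nat.card_eq_fintype_card (α := {x : X // p x})]
  push_cast
  rw [Finset.sum_congr rfl fun x _ => hc x.1 x.2, Finset.sum_const, Finset.card_univ, nsmul_eq_mul,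
    mul_comm]

theorem card_sum_fiber {X Y : Type} [Finite X] [Finite Y] (R : X → Y → Prop) (p : X → Prop)
    (d : X → ℕ) (n : ℕ) (hd : ∀ x, p x → d x ≤ n) (c : ℕ → ℤ) (hR : ∀ x y, R x y → p x)
    (hc : ∀ x, p x → (Nat.card {y : Y // R x y} : ℤ) = c (d x)) :
    (Nat.card {z : X × Y // R z.1 z.2} : ℤ) =
      ∑ r ∈ Finset.range (n + 1), c r * Nat.card {x : X // d x = r ∧ p x} := by
  classical
  have := Fintype.ofFinite X
  have := Fintype.ofFinite Y
  have h1 : ∀ r, (Nat.card {z : X × Y // d z.1 = r ∧ R z.1 z.2} : ℤ) =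
      c r * Nat.card {x : X // d x = r ∧ p x} := by
    intro r
    refine card_sigma_const (fun x => d x = r ∧ p x) (fun x y => d x = r ∧ R x y) (c r)
      (fun x y h => ⟨h.1, hR x y h.2⟩) fun x hx => ?_
    have := hc x hx.2
    rw [hx.1] at this
    rw [← this]
    congr 1
    refine Nat.card_congr (Equiv.subtypeEquivRight fun y => ?_)
    simp [hx.1]
  rw [Finset.sum_congr rfl fun r _ => (h1 r).symm]
  rw [Nat.card_eq_fintype_card, Fintype.card_subtype]
  have h2 : ∀ r, Nat.card {z : X × Y // d z.1 = r ∧ R z.1 z.2} =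
      ((Finset.univ.filter fun z : X × Y => R z.1 z.2).filter fun z => d z.1 = r).card := by
    intro r
    rw [Nat.card_eq_fintype_card, Fintype.card_subtype, Finset.filter_filter]
    congr 1
    ext z
    simp [and_comm]
  simp_rw [h2]
  rw [← Nat.cast_sum, ← Finset.card_eq_sum_card_fiberwise]
  intro z hz
  have hz' : R z.1 z.2 := by simpa using hz
  simp only [Finset.coe_range, Set.mem_Iio]
  have := hd _ (hR _ _ hz')
  omega

/-- the number of completions of a matrix with independent rows to an invertible matrix -/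
theorem card_bot {ι κ : Type} [Fintype ι] [DecidableEq ι] [Fintype κ] [DecidableEq κ]
    (T : Matrix ι (ι ⊕ κ) K) (hT : LinearIndependent K T.row) :
    (Nat.card {D : Matrix κ (ι ⊕ κ) K // (fromRows T D).det ≠ 0} : ℤ) =
      ((Nat.card K : ℤ) ^ Fintype.card κ) ^ Fintype.card ι *
        ∏ i ∈ Finset.range (Fintype.card κ),
          ((Nat.card K : ℤ) ^ Fintype.card κ - (Nat.card K : ℤ) ^ i) := by
  have h := card_cols (κ' := κ) Tᵀ
  have hr : Tᵀ.rank = Fintype.card ι := by
    rw [rank_transpose]
    exact hT.rank_matrix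
  rw [hr, Fintype.card_sum, Nat.add_sub_cancel_left] at h
  rw [← h]
  congr 1
  refine Nat.card_congr ((Matrix.transposeAddEquiv _ _ _).toEquiv.subtypeEquiv fun D => ?_)
  show _ ↔ LinearIndependent K (fromCols Tᵀ Dᵀ).row
  rw [← transpose_fromRows, linearIndependent_rows_iff_isUnit, isUnit_transpose,
    isUnit_iff_isUnit_det, isUnit_iff_ne_zero]

/-- **The invertible matrices with prescribed zeros in a block.** -/
theorem card_border {ι κ : Type} [Fintype ι] [DecidableEq ι] [Fintype κ] [DecidableEq κ]
    (Z : ι → ι → Prop) :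
    (Nat.card {M : Matrix (ι ⊕ κ) (ι ⊕ κ) K // M.det ≠ 0 ∧
        ∀ i j, Z i j → M (Sum.inl i) (Sum.inl j) = 0} : ℤ) =
      (((Nat.card K : ℤ) ^ Fintype.card κ) ^ Fintype.card ι *
        ∏ i ∈ Finset.range (Fintype.card κ),
          ((Nat.card K : ℤ) ^ Fintype.card κ - (Nat.card K : ℤ) ^ i)) *
      ∑ r ∈ Finset.range (Fintype.card ι + 1), (((Nat.card K : ℤ) ^ Fintype.card κ) ^ r *
        ∏ i ∈ Finset.range (Fintype.card ι - r),
          ((Nat.card K : ℤ) ^ Fintype.card κ - (Nat.card K : ℤ) ^ i)) *
        Nat.card {A : Matrix ι ι K // A.rank = r ∧ ∀ i j, Z i j → A i j = 0} := by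
  classical
  let R : (Matrix ι ι K × Matrix ι κ K) → Matrix κ (ι ⊕ κ) K → Prop := fun p D =>
    (fromRows (fromCols p.1 p.2) D).det ≠ 0 ∧ ∀ i j, Z i j → p.1 i j = 0
  let P : (Matrix ι ι K × Matrix ι κ K) → Prop := fun p =>
    LinearIndependent K (fromCols p.1 p.2).row ∧ ∀ i j, Z i j → p.1 i j = 0
  have e0 : Nat.card {M : Matrix (ι ⊕ κ) (ι ⊕ κ) K // M.det ≠ 0 ∧
        ∀ i j, Z i j → M (Sum.inl i) (Sum.inl j) = 0} =
      Nat.card {z : (Matrix ι ι K × Matrix ι κ K) × Matrix κ (ι ⊕ κ) K // R z.1 z.2} := by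
    refine Nat.card_congr
      { toFun := fun M => ⟨((toCols₁ (toRows₁ M.1), toCols₂ (toRows₁ M.1)), toRows₂ M.1), by
          have h := M.2
          refine ⟨?_, h.2⟩
          rw [fromCols_toCols, fromRows_toRows]
          exact h.1⟩
        invFun := fun z => ⟨fromRows (fromCols z.1.1.1 z.1.1.2) z.1.2, z.2.1, z.2.2⟩
        left_inv := fun M => by
          apply Subtype.ext
          show fromRows (fromCols (toCols₁ (toRows₁ M.1)) (toCols₂ (toRows₁ M.1))) (toRows₂ M.1) = M.1
          rw [fromCols_toCols, fromRows_toRows]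
        right_inv := fun z => by
          apply Subtype.ext
          obtain ⟨⟨⟨A, B⟩, D⟩, h⟩ := z
          rfl }
  have e1 := card_sigma_const (X := Matrix ι ι K × Matrix ι κ K) (Y := Matrix κ (ι ⊕ κ) K) P R
    (((Nat.card K : ℤ) ^ Fintype.card κ) ^ Fintype.card ι *
        ∏ i ∈ Finset.range (Fintype.card κ),
          ((Nat.card K : ℤ) ^ Fintype.card κ - (Nat.card K : ℤ) ^ i))
    (fun p D h => by
      refine ⟨?_, h.2⟩
      have h1 := h.1
      have h2 := linearIndependent_rows_of_det_ne_zero h1
      exact h2.comp Sum.inl Sum.inl_injective)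
    (fun p hp => by
      rw [← card_bot _ hp.1]
      congr 1
      refine Nat.card_congr (Equiv.subtypeEquivRight fun D => ?_)
      exact ⟨fun h => h.1, fun h => ⟨h, hp.2⟩⟩)
  have e2 := card_sum_fiber (X := Matrix ι ι K) (Y := Matrix ι κ K)
    (fun A B => LinearIndependent K (fromCols A B).row ∧ ∀ i j, Z i j → A i j = 0)
    (fun A => ∀ i j, Z i j → A i j = 0) (fun A => A.rank) (Fintype.card ι)
    (fun A _ => A.rank_le_card_height)
    (fun r => ((Nat.card K : ℤ) ^ Fintype.card κ) ^ r *
        ∏ i ∈ Finset.range (Fintype.card ι - r),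
          ((Nat.card K : ℤ) ^ Fintype.card κ - (Nat.card K : ℤ) ^ i))
    (fun A B h => h.2)
    (fun A hA => by
      show _ = ((Nat.card K : ℤ) ^ Fintype.card κ) ^ A.rank *
        ∏ i ∈ Finset.range (Fintype.card ι - A.rank),
          ((Nat.card K : ℤ) ^ Fintype.card κ - (Nat.card K : ℤ) ^ i)
      rw [← card_cols]
      congr 1
      refine Nat.card_congr (Equiv.subtypeEquivRight fun B => ?_)
      exact ⟨fun h => h.1, fun h => ⟨h, hA⟩⟩)
  rw [e0, e1, ← e2]

end

end Pool.Agent.Helper90.PZ
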