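import Pool.Agent.Helper90.PZ.Cfg

/-!
# Systems of elementary equations as configurations of points and lines
-/

set_option autoImplicit false

namespace Pool.Agent.Helper90.PZ

open Matrix Pool.Agent.E8helper17.FZ

/-- A system of equations `x = 1`, `x = y + z`, `z = x y`. -/
structure Sys (V : Type) where
  O : Type
  A : Type
  M : Type
  [fO : Fintype O]
  [fA : Fintype A]
  [fM : Fintype M]
  o : O → V
  a1 : A → V
  a2 : A → V
  a3 : A → V
  m1 : M → V
  m2 : M → V
  m3 : M → V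

attribute [instance] Sys.fO Sys.fA Sys.fM

/-- the solutions -/
def Sys.Sat {V : Type} (E : Sys V) {K : Type} [Field K] (x : V → K) : Prop :=
  (∀ i, x (E.o i) = 1) ∧ (∀ i, x (E.a1 i) = x (E.a2 i) + x (E.a3 i)) ∧
    ∀ i, x (E.m3 i) = x (E.m1 i) * x (E.m2 i)

/-- the points -/
inductive Pt (V O A M : Type) where
  | d : Pt V O A M
  | Q : V → Pt V O A M
  | Z : V → Pt V O A M
  | R : V → Pt V O A M
  | T : A → Pt V O A M
  | S : M → Pt V O A M
  | U : O → Pt V O A M

/-- the lines -/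
inductive Ln (V : Type) where
  | g : Ln V
  | e : Ln V
  | w : V → Ln V
  | h : V → Ln V
  | s : V → Ln V
  | m : V → Ln V

def Pt.equiv (V O A M : Type) : Pt V O A M ≃ Unit ⊕ V ⊕ V ⊕ V ⊕ A ⊕ M ⊕ O where
  toFun
    | .d => .inl ()
    | .Q a => .inr (.inl a)
    | .Z a => .inr (.inr (.inl a))
    | .R a => .inr (.inr (.inr (.inl a)))
    | .T a => .inr (.inr (.inr (.inr (.inl a))))
    | .S a => .inr (.inr (.inr (.inr (.inr (.inl a)))))
    | .U a => .inr (.inr (.inr (.inr (.inr (.inr a)))))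
  invFun
    | .inl () => .d
    | .inr (.inl a) => .Q a
    | .inr (.inr (.inl a)) => .Z a
    | .inr (.inr (.inr (.inl a))) => .R a
    | .inr (.inr (.inr (.inr (.inl a)))) => .T a
    | .inr (.inr (.inr (.inr (.inr (.inl a))))) => .S a
    | .inr (.inr (.inr (.inr (.inr (.inr a))))) => .U a
  left_inv := by rintro (_ | _ | _ | _ | _ | _ | _) <;> rfl
  right_inv := by rintro (_ | _ | _ | _ | _ | _ | _) <;> rfl

def Ln.equiv (V : Type) : Ln V ≃ Unit ⊕ Unit ⊕ V ⊕ V ⊕ V ⊕ V where
  toFun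
    | .g => .inl ()
    | .e => .inr (.inl ())
    | .w a => .inr (.inr (.inl a))
    | .h a => .inr (.inr (.inr (.inl a)))
    | .s a => .inr (.inr (.inr (.inr (.inl a))))
    | .m a => .inr (.inr (.inr (.inr (.inr a))))
  invFun
    | .inl () => .g
    | .inr (.inl ()) => .e
    | .inr (.inr (.inl a)) => .w a
    | .inr (.inr (.inr (.inl a))) => .h a
    | .inr (.inr (.inr (.inr (.inl a)))) => .s a
    | .inr (.inr (.inr (.inr (.inr a)))) => .m a
  left_inv := by rintro (_ | _ | _ | _ | _ | _) <;> rfl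
  right_inv := by rintro (_ | _ | _ | _ | _ | _) <;> rfl

noncomputable instance {V O A M : Type} [Fintype V] [Fintype O] [Fintype A] [Fintype M] :
    Fintype (Pt V O A M) := Fintype.ofEquiv _ (Pt.equiv V O A M).symm

noncomputable instance {V : Type} [Fintype V] : Fintype (Ln V) := Fintype.ofEquiv _ (Ln.equiv V).symm

variable {V : Type}

/-- the pivot coordinate of a point -/
def pivP {O A M : Type} : Pt V O A M → Fin 3
  | .d => 1
  | _ => 0

/-- the pivot coordinate of a line -/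
def pivL : Ln V → Fin 3
  | .g => 1
  | .e => 2
  | .w _ => 1
  | .h _ => 2
  | .s _ => 1
  | .m _ => 2

/-- the shape which encodes a system of elementary equations -/
def Sys.shape (E : Sys V) : Shape (Pt V E.O E.A E.M) (Ln V) where
  zP i c := match i with
    | .d => c = 0
    | .Z _ => c = 2
    | .U _ => c = 2
    | _ => False
  nP i c := match i with
    | .d => c = 1 ∨ c = 2
    | _ => c = 0
  zL j c := match j with
    | .g => c = 2
    | .e => c = 0
    | .w _ => c = 2
    | .h _ => c = 1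
    | .m _ => c = 0
    | .s _ => False
  nL j c := match j with
    | .g => c = 0 ∨ c = 1
    | .e => c = 2
    | .w _ => c = 1
    | .h _ => c = 2
    | .s _ => c = 1
    | .m _ => c = 2
  inc i j := match i, j with
    | .d, .e => True
    | .d, .s _ => True
    | .Q a, .w b => a = b
    | .Q a, .h b => a = b
    | .Q _, .e => True
    | .Z a, .w b => a = b
    | .Z a, .s b => a = b
    | .R _, .g => True
    | .R a, .h b => a = b
    | .R a, .m b => a = b
    | .T i, .w b => E.a1 i = b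
    | .T i, .h b => E.a2 i = b
    | .T i, .s b => E.a3 i = b
    | .S i, .w b => E.m1 i = b
    | .S i, .m b => E.m2 i = b
    | .S i, .h b => E.m3 i = b
    | .U _, .g => True
    | .U i, .w b => E.o i = b
    | _, _ => False

/-- the canonical points -/
def ptv (E : Sys V) {K : Type} [Field K] (δ γ : K) (x : V → K) : Pt V E.O E.A E.M → Fin 3 → K
  | .d => ![0, 1, δ]
  | .Q a => ![1, γ * x a, δ * γ * x a]
  | .Z a => ![1, γ * x a, 0]
  | .R a => ![1, γ, δ * γ * x a]
  | .T i => ![1, γ * x (E.a1 i), δ * γ * x (E.a2 i)]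
  | .S i => ![1, γ * x (E.m1 i), δ * γ * x (E.m3 i)]
  | .U _ => ![1, γ, 0]

/-- the canonical lines -/
def lnv {K : Type} [Field K] (δ γ : K) (x : V → K) : Ln V → Fin 3 → K
  | .g => ![-γ, 1, 0]
  | .e => ![0, -δ, 1]
  | .w a => ![-(γ * x a), 1, 0]
  | .h a => ![-(δ * γ * x a), 0, 1]
  | .s a => ![-(γ * x a), 1, -δ⁻¹]
  | .m a => ![0, -(δ * x a), 1]

theorem cfg_of_sat (E : Sys V) {K : Type} [Field K] {δ γ : K} (hδ : δ ≠ 0) (hγ : γ ≠ 0) {x : V → K}
    (hx : E.Sat x) (la : Pt V E.O E.A E.M → Kˣ) (mu : Ln V → Kˣ) :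
    IsCfg E.shape (fun i c => (la i : K) * ptv E δ γ x i c) (fun j c => (mu j : K) * lnv δ γ x j c) := by
  obtain ⟨hO, hA, hM⟩ := hx
  refine ⟨?_, ?_, ?_, ?_, ?_⟩
  · rintro (_ | _ | _ | _ | _ | _ | _) c h <;> first | exact h.elim | (cases h; simp [ptv])
  · rintro (_ | _ | _ | _ | _ | _ | _) c h
    · rcases h with h | h <;> cases h <;> simp [ptv, hδ]
    all_goals cases h; simp [ptv]
  · rintro (_ | _ | _ | _ | _ | _) c h <;> first | exact h.elim | (cases h; simp [lnv])
  · rintro (_ | _ | _ | _ | _ | _) c h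
    · rcases h with h | h <;> cases h <;> simp [lnv, hγ]
    all_goals cases h; simp [lnv]
  · intro i j h
    rw [Fin.sum_univ_three]
    suffices h' : ptv E δ γ x i 0 * lnv δ γ x j 0 + ptv E δ γ x i 1 * lnv δ γ x j 1 +
        ptv E δ γ x i 2 * lnv δ γ x j 2 = 0 by
      linear_combination (la i : K) * (mu j : K) * h'
    rcases i with _ | a | a | a | i | i | i <;> rcases j with _ | _ | b | b | b | b <;>
      first
        | exact h.elim
        | simp only [ptv, lnv, Matrix.cons_val_zero, Matrix.cons_val_one, Matrix.cons_val]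
    · ring
    · field_simp; ring
    · ring
    · have h : a = b := h
      subst h; ring
    · have h : a = b := h
      subst h; ring
    · have h : a = b := h
      subst h; ring
    · have h : a = b := h
      subst h; ring
    · ring
    · have h : a = b := h
      subst h; ring
    · have h : a = b := h
      subst h; ring
    · have h : E.a1 i = b := h
      subst h; ring
    · have h : E.a2 i = b := h
      subst h; ring
    · have h : E.a3 i = b := h
      subst h
      rw [hA]; field_simp; ring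
    · have h : E.m1 i = b := h
      subst h; ring
    · have h : E.m3 i = b := h
      subst h; ring
    · have h : E.m2 i = b := h
      subst h
      rw [hM]; ring
    · ring
    · have h : E.o i = b := h
      subst h
      rw [hO]; ring

/-- the parameters of a configuration -/
theorem cfg_params (E : Sys V) {K : Type} [Field K] {p : Pt V E.O E.A E.M → Fin 3 → K}
    {l : Ln V → Fin 3 → K} (H : IsCfg E.shape p l) :
    ∃ δ γ : K, ∃ x : V → K, δ = p .d 2 / p .d 1 ∧ γ = -(l .g 0) / l .g 1 ∧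
      (∀ a, x a = -(l (.w a) 0) / l (.w a) 1 / γ) ∧ δ ≠ 0 ∧ γ ≠ 0 ∧ E.Sat x ∧
      (∀ i, p i (pivP i) ≠ 0) ∧ (∀ j, l j (pivL j) ≠ 0) ∧
      (∀ i c, p i c = p i (pivP i) * ptv E δ γ x i c) ∧ ∀ j c, l j c = l j (pivL j) * lnv δ γ x j c := by
  obtain ⟨h1, h2, h3, h4, h5⟩ := H
  -- the coordinates
  have pd0 : p .d 0 = 0 := h1 .d 0 rfl
  have pd1 : p .d 1 ≠ 0 := h2 .d 1 (Or.inl rfl)
  have pd2 : p .d 2 ≠ 0 := h2 .d 2 (Or.inr rfl)
  have lg0 : l .g 0 ≠ 0 := h4 .g 0 (Or.inl rfl)
  have lg1 : l .g 1 ≠ 0 := h4 .g 1 (Or.inr rfl)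
  have lg2 : l .g 2 = 0 := h3 .g 2 rfl
  have le0 : l .e 0 = 0 := h3 .e 0 rfl
  have le2 : l .e 2 ≠ 0 := h4 .e 2 rfl
  have lw2 : ∀ a, l (.w a) 2 = 0 := fun a => h3 (.w a) 2 rfl
  have lw1 : ∀ a, l (.w a) 1 ≠ 0 := fun a => h4 (.w a) 1 rfl
  have lh1 : ∀ a, l (.h a) 1 = 0 := fun a => h3 (.h a) 1 rfl
  have lh2 : ∀ a, l (.h a) 2 ≠ 0 := fun a => h4 (.h a) 2 rfl
  have ls1 : ∀ a, l (.s a) 1 ≠ 0 := fun a => h4 (.s a) 1 rfl
  have lm0 : ∀ a, l (.m a) 0 = 0 := fun a => h3 (.m a) 0 rfl
  have lm2 : ∀ a, l (.m a) 2 ≠ 0 := fun a => h4 (.m a) 2 rfl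
  set δ := p .d 2 / p .d 1 with hδ
  set γ := -(l .g 0) / l .g 1 with hγ
  have hδ0 : δ ≠ 0 := div_ne_zero pd2 pd1
  have hγ0 : γ ≠ 0 := div_ne_zero (neg_ne_zero.2 lg0) lg1
  let x : V → K := fun a => -(l (.w a) 0) / l (.w a) 1 / γ
  have inc : ∀ i j, E.shape.inc i j → p i 0 * l j 0 + p i 1 * l j 1 + p i 2 * l j 2 = 0 := by
    intro i j h
    have := h5 i j h
    rwa [Fin.sum_univ_three] at this
  -- the lines
  have ld : p .d 2 = p .d 1 * δ := by rw [hδ]; field_simp
  have lg : l .g 0 = l .g 1 * (-γ) := by rw [hγ]; field_simp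
  have lw : ∀ a, l (.w a) 0 = l (.w a) 1 * (-(γ * x a)) := by
    intro a
    have := lw1 a
    simp only [x]
    field_simp
  have le : l .e 1 = l .e 2 * (-δ) := by
    have := inc .d .e trivial
    rw [pd0, ld] at this
    have h := mul_left_cancel₀ pd1 (show p .d 1 * (l .e 1) = p .d 1 * (l .e 2 * (-δ)) by
      linear_combination this)
    exact h
  have ptw : ∀ (i) (a : V), p i 0 ≠ 0 → E.shape.inc i (.w a) → p i 1 = p i 0 * (γ * x a) := by
    intro i a h0 h
    have := inc i (.w a) h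
    rw [lw2, lw] at this
    exact mul_left_cancel₀ (lw1 a) (by linear_combination this)
  have nQ : ∀ a, p (.Q a) 0 ≠ 0 := fun a => h2 (.Q a) 0 rfl
  have nZ : ∀ a, p (.Z a) 0 ≠ 0 := fun a => h2 (.Z a) 0 rfl
  have nR : ∀ a, p (.R a) 0 ≠ 0 := fun a => h2 (.R a) 0 rfl
  have nT : ∀ a, p (.T a) 0 ≠ 0 := fun a => h2 (.T a) 0 rfl
  have nS : ∀ a, p (.S a) 0 ≠ 0 := fun a => h2 (.S a) 0 rfl
  have nU : ∀ a, p (.U a) 0 ≠ 0 := fun a => h2 (.U a) 0 rfl
  have Q1 : ∀ a, p (.Q a) 1 = p (.Q a) 0 * (γ * x a) := fun a => ptw _ a (nQ a) rfl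
  have Q2 : ∀ a, p (.Q a) 2 = p (.Q a) 0 * (δ * γ * x a) := by
    intro a
    have := inc (.Q a) .e trivial
    rw [le0, le, Q1] at this
    exact mul_left_cancel₀ le2 (by linear_combination this)
  have lh : ∀ a, l (.h a) 0 = l (.h a) 2 * (-(δ * γ * x a)) := by
    intro a
    have := inc (.Q a) (.h a) rfl
    rw [lh1, Q2] at this
    exact mul_left_cancel₀ (nQ a) (by linear_combination this)
  have pth : ∀ (i) (a : V), p i 0 ≠ 0 → E.shape.inc i (.h a) → p i 2 = p i 0 * (δ * γ * x a) := by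
    intro i a h0 h
    have := inc i (.h a) h
    rw [lh1, lh] at this
    exact mul_left_cancel₀ (lh2 a) (by linear_combination this)
  have ptg : ∀ (i), E.shape.inc i .g → p i 1 = p i 0 * γ := by
    intro i h
    have := inc i .g h
    rw [lg2, lg] at this
    exact mul_left_cancel₀ lg1 (by linear_combination this)
  have Z1 : ∀ a, p (.Z a) 1 = p (.Z a) 0 * (γ * x a) := fun a => ptw _ a (nZ a) rfl
  have Z2 : ∀ a, p (.Z a) 2 = 0 := fun a => h1 (.Z a) 2 rfl
  have ls0 : ∀ a, l (.s a) 0 = l (.s a) 1 * (-(γ * x a)) := by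
    intro a
    have := inc (.Z a) (.s a) rfl
    rw [Z1, Z2] at this
    exact mul_left_cancel₀ (nZ a) (by linear_combination this)
  have ls2 : ∀ a, l (.s a) 2 = l (.s a) 1 * (-δ⁻¹) := by
    intro a
    have := inc .d (.s a) trivial
    rw [pd0, ld] at this
    have h : p .d 1 * (δ * l (.s a) 2) = p .d 1 * (-l (.s a) 1) := by linear_combination this
    have h' := mul_left_cancel₀ pd1 h
    field_simp
    linear_combination h'
  have R1 : ∀ a, p (.R a) 1 = p (.R a) 0 * γ := fun a => ptg _ trivial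
  have R2 : ∀ a, p (.R a) 2 = p (.R a) 0 * (δ * γ * x a) := fun a => pth _ a (nR a) rfl
  have lm : ∀ a, l (.m a) 1 = l (.m a) 2 * (-(δ * x a)) := by
    intro a
    have := inc (.R a) (.m a) rfl
    rw [lm0, R1, R2] at this
    exact mul_left_cancel₀ (mul_ne_zero (nR a) hγ0) (by linear_combination this)
  have T1 : ∀ i, p (.T i) 1 = p (.T i) 0 * (γ * x (E.a1 i)) := fun i => ptw _ _ (nT i) rfl
  have T2 : ∀ i, p (.T i) 2 = p (.T i) 0 * (δ * γ * x (E.a2 i)) := fun i => pth _ _ (nT i) rfl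
  have S1 : ∀ i, p (.S i) 1 = p (.S i) 0 * (γ * x (E.m1 i)) := fun i => ptw _ _ (nS i) rfl
  have S2 : ∀ i, p (.S i) 2 = p (.S i) 0 * (δ * γ * x (E.m3 i)) := fun i => pth _ _ (nS i) rfl
  have U1 : ∀ i, p (.U i) 1 = p (.U i) 0 * γ := fun i => ptg _ trivial
  have U2 : ∀ i, p (.U i) 2 = 0 := fun i => h1 (.U i) 2 rfl
  refine ⟨δ, γ, x, rfl, rfl, fun a => rfl, hδ0, hγ0, ⟨fun i => ?_, fun i => ?_, fun i => ?_⟩, ?_, ?_, ?_,
    ?_⟩
  · have := ptw (.U i) (E.o i) (nU i) rfl
    rw [U1] at this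
    have h := mul_left_cancel₀ (nU i) this
    exact (mul_left_cancel₀ hγ0 (by linear_combination -h))
  · have := inc (.T i) (.s (E.a3 i)) rfl
    rw [T1, T2, ls0, ls2] at this
    have h : p (.T i) 0 * l (.s (E.a3 i)) 1 * γ * (x (E.a1 i)) =
        p (.T i) 0 * l (.s (E.a3 i)) 1 * γ * (x (E.a2 i) + x (E.a3 i)) := by
      have e : δ * δ⁻¹ = 1 := mul_inv_cancel₀ hδ0
      linear_combination this + p (.T i) 0 * γ * x (E.a2 i) * l (.s (E.a3 i)) 1 * e
    exact mul_left_cancel₀ (mul_ne_zero (mul_ne_zero (nT i) (ls1 _)) hγ0) h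
  · have := inc (.S i) (.m (E.m2 i)) rfl
    rw [S1, S2, lm0, lm] at this
    have h : p (.S i) 0 * l (.m (E.m2 i)) 2 * (δ * γ) * (x (E.m3 i)) =
        p (.S i) 0 * l (.m (E.m2 i)) 2 * (δ * γ) * (x (E.m1 i) * x (E.m2 i)) := by
      linear_combination this
    exact mul_left_cancel₀ (mul_ne_zero (mul_ne_zero (nS i) (lm2 _)) (mul_ne_zero hδ0 hγ0)) h
  · rintro (_ | a | a | a | i | i | i)
    · exact pd1
    · exact nQ a
    · exact nZ a
    · exact nR a
    · exact nT i
    · exact nS i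
    · exact nU i
  · rintro (_ | _ | a | a | a | a)
    · exact lg1
    · exact le2
    · exact lw1 a
    · exact lh2 a
    · exact ls1 a
    · exact lm2 a
  · rintro (_ | a | a | a | i | i | i) c <;> fin_cases c <;>
      simp only [ptv, pivP, Matrix.cons_val_zero, Matrix.cons_val_one, Matrix.cons_val, Fin.mk_one,
        Fin.zero_eta, Fin.reduceFinMk, mul_one, mul_zero]
    all_goals
      first
        | assumption
        | exact Q1 a
        | exact Q2 a
        | exact Z1 a
        | exact Z2 a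
        | exact R1 a
        | exact R2 a
        | exact T1 i
        | exact T2 i
        | exact S1 i
        | exact S2 i
        | exact U1 i
        | exact U2 i
  · rintro (_ | _ | a | a | a | a) c <;> fin_cases c <;>
      simp only [lnv, pivL, Matrix.cons_val_zero, Matrix.cons_val_one, Matrix.cons_val, Fin.mk_one,
        Fin.zero_eta, Fin.reduceFinMk, mul_one, mul_zero]
    all_goals
      first
        | assumption
        | exact lw a
        | exact lw2 a
        | exact lh a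
        | exact lh1 a
        | exact ls0 a
        | exact ls2 a
        | exact lm0 a
        | exact lm a

theorem ptv_piv (E : Sys V) {K : Type} [Field K] (δ γ : K) (x : V → K) (i : Pt V E.O E.A E.M) :
    ptv E δ γ x i (pivP i) = 1 := by
  rcases i with _ | a | a | a | i | i | i <;> rfl

theorem lnv_piv {K : Type} [Field K] (δ γ : K) (x : V → K) (j : Ln V) :
    lnv δ γ x j (pivL j) = 1 := by
  rcases j with _ | _ | a | a | a | a <;> rfl

/-- **The number of configurations of the shape of a system of elementary equations.** -/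
theorem cfgN_eq [Fintype V] (E : Sys V) (K : Type) [Field K] [Finite K] :
    (cfgN E.shape K : ℤ) =
      ((Nat.card K : ℤ) - 1) ^ (Fintype.card (Pt V E.O E.A E.M) + Fintype.card (Ln V) + 2) *
        (Nat.card {x : V → K // E.Sat x} : ℤ) := by
  classical
  have := Fintype.ofFinite K
  have e : {x : (Pt V E.O E.A E.M → Fin 3 → K) × (Ln V → Fin 3 → K) // IsCfg E.shape x.1 x.2} ≃
      ((Pt V E.O E.A E.M → Kˣ) × (Ln V → Kˣ)) × (Kˣ × Kˣ) × {x : V → K // E.Sat x} :=
    { toFun := fun z => ((fun i => Units.mk0 (z.1.1 i (pivP i)) (by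
            obtain ⟨δ, γ, x, -, -, -, -, -, -, h, -⟩ := cfg_params E z.2
            exact h i), fun j => Units.mk0 (z.1.2 j (pivL j)) (by
            obtain ⟨δ, γ, x, -, -, -, -, -, -, -, h, -⟩ := cfg_params E z.2
            exact h j)),
          (Units.mk0 (z.1.1 .d 2 / z.1.1 .d 1) (by
            obtain ⟨δ, γ, x, h1, -, -, h, -⟩ := cfg_params E z.2
            rwa [← h1]),
          Units.mk0 (-(z.1.2 .g 0) / z.1.2 .g 1) (by
            obtain ⟨δ, γ, x, -, h1, -, -, h, -⟩ := cfg_params E z.2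
            rwa [← h1])),
          ⟨fun a => -(z.1.2 (.w a) 0) / z.1.2 (.w a) 1 / (-(z.1.2 .g 0) / z.1.2 .g 1), by
            obtain ⟨δ, γ, x, -, h1, h2, -, -, h, -⟩ := cfg_params E z.2
            rw [← h1]
            have : x = fun a => -(z.1.2 (.w a) 0) / z.1.2 (.w a) 1 / γ := funext h2
            rwa [← this]⟩)
      invFun := fun y => ⟨(fun i c => (y.1.1 i : K) * ptv E (y.2.1.1 : K) (y.2.1.2 : K) y.2.2.1 i c,
          fun j c => (y.1.2 j : K) * lnv (y.2.1.1 : K) (y.2.1.2 : K) y.2.2.1 j c),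
          cfg_of_sat E (y.2.1.1.ne_zero) (y.2.1.2.ne_zero) y.2.2.2 y.1.1 y.1.2⟩
      left_inv := fun z => by
        obtain ⟨δ, γ, x, h1, h2, h3, -, -, -, -, -, hp, hl⟩ := cfg_params E z.2
        have hx : x = fun a => -(z.1.2 (.w a) 0) / z.1.2 (.w a) 1 / (-(z.1.2 .g 0) / z.1.2 .g 1) := by
          ext a
          rw [h3, h2]
        apply Subtype.ext
        refine Prod.ext ?_ ?_
        · ext i c
          show z.1.1 i (pivP i) * ptv E (z.1.1 .d 2 / z.1.1 .d 1) (-(z.1.2 .g 0) / z.1.2 .g 1)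
            (fun a => -(z.1.2 (.w a) 0) / z.1.2 (.w a) 1 / (-(z.1.2 .g 0) / z.1.2 .g 1)) i c = z.1.1 i c
          rw [← hx, ← h1, ← h2]
          exact (hp i c).symm
        · ext j c
          show z.1.2 j (pivL j) * lnv (z.1.1 .d 2 / z.1.1 .d 1) (-(z.1.2 .g 0) / z.1.2 .g 1)
            (fun a => -(z.1.2 (.w a) 0) / z.1.2 (.w a) 1 / (-(z.1.2 .g 0) / z.1.2 .g 1)) j c = z.1.2 j c
          rw [← hx, ← h1, ← h2]
          exact (hl j c).symm
      right_inv := fun y => by
        obtain ⟨⟨la, mu⟩, ⟨δ, γ⟩, ⟨x, hx⟩⟩ := y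
        have hδ : (δ : K) ≠ 0 := δ.ne_zero
        have hγ : (γ : K) ≠ 0 := γ.ne_zero
        have e1 : (la .d : K) * (δ : K) / ((la .d : K) * 1) = δ := by
          have := (la .d).ne_zero
          field_simp
        have e2 : -((mu .g : K) * (-(γ : K))) / ((mu .g : K) * 1) = γ := by
          have := (mu .g).ne_zero
          field_simp
        refine Prod.ext (Prod.ext ?_ ?_) (Prod.ext (Prod.ext ?_ ?_) (Subtype.ext ?_))
        · ext i
          show (la i : K) * ptv E (δ : K) (γ : K) x i (pivP i) = la i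
          rw [ptv_piv, mul_one]
        · ext j
          show (mu j : K) * lnv (δ : K) (γ : K) x j (pivL j) = mu j
          rw [lnv_piv, mul_one]
        · ext
          exact e1
        · ext
          exact e2
        · ext a
          show -((mu (.w a) : K) * (-((γ : K) * x a))) / ((mu (.w a) : K) * 1) /
            (-((mu .g : K) * (-(γ : K))) / ((mu .g : K) * 1)) = x a
          rw [e2]
          have := (mu (.w a)).ne_zero
          field_simp }
  unfold cfgN
  rw [Nat.card_congr e, Nat.card_prod, Nat.card_prod, Nat.card_prod, Nat.card_prod, Nat.card_fun,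
    Nat.card_fun, Nat.card_units, Nat.card_eq_fintype_card (α := Pt V E.O E.A E.M),
    Nat.card_eq_fintype_card (α := Ln V)]
  push_cast
  rw [Nat.cast_sub Nat.card_pos]
  push_cast
  ring

/-- **All systems of elementary equations.** -/
theorem sys_continues {P : ℕ} {𝒞 : ((K : Type) → [Field K] → ℤ) → Prop} (h𝒞 : ClosedClass P 𝒞)
    (H : ∀ (ι κ : Type) [Fintype ι] [Fintype κ] (Z T : ι → κ → Prop),
      𝒞 (fun K _ => (znN Z T 3 K : ℤ))) [Fintype V] (E : Sys V) :
    𝒞 (fun K _ => (Nat.card {x : V → K // E.Sat x} : ℤ)) := by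
  classical
  have h1 := H _ _ E.shape.Z E.shape.T
  have hgr : Growth (fun K _ => (Nat.card {x : V → K // E.Sat x} : ℤ)) := by
    refine growth_of_le (n := Fintype.card V) fun K _ _ => ?_
    rw [abs_of_nonneg (by positivity)]
    have h1 : Nat.card {x : V → K // E.Sat x} ≤ Nat.card (V → K) := Finite.card_subtype_le _
    rw [Nat.card_fun, Nat.card_eq_fintype_card (α := V)] at h1
    exact_mod_cast h1
  refine h𝒞.div hgr ((Polynomial.X ^ 1 - 1) ^
    (3 + (Fintype.card (Pt V E.O E.A E.M) + Fintype.card (Ln V) + 2)))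
    ((Den.cyc 1 one_pos).pow _) (h𝒞.congr h1 fun K _ _ _ => ?_)
  rw [cfg_count, cfgN_eq, Polynomial.eval_pow, Polynomial.eval_sub, Polynomial.eval_pow,
    Polynomial.eval_X, Polynomial.eval_one, pow_add, pow_one]
  ring

end Pool.Agent.Helper90.PZ
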