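import Pool.Agent.Helper90.PZ.Circ

/-!
# Matrices with prescribed zeros and the numbers of solutions of systems of polynomial equations
-/

set_option autoImplicit false

namespace Pool.Agent.Helper90.PZ

open Matrix Pool.Agent.E8helper17.FZ

/-- The number of the matrices in `GL_n(K)` with zeros at the positions in `S`. -/
noncomputable def glZeros {n : ℕ} (S : Finset (Fin n × Fin n)) (K : Type) [Field K] : ℕ :=
  Nat.card {A : Matrix (Fin n) (Fin n) K // A.det ≠ 0 ∧ ∀ p ∈ S, A p.1 p.2 = 0}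

/-- The number of the matrices in `SL_n(K)` with zeros at the positions in `S`. -/
noncomputable def slZeros {n : ℕ} (S : Finset (Fin n × Fin n)) (K : Type) [Field K] : ℕ :=
  Nat.card {A : Matrix (Fin n) (Fin n) K // A.det = 1 ∧ ∀ p ∈ S, A p.1 p.2 = 0}

/-- The number of the `m × n` matrices of rank `r` over `K` with zeros at the positions in `S`. -/
noncomputable def rankZeros (r : ℕ) {m n : ℕ} (S : Finset (Fin m × Fin n)) (K : Type) [Field K] : ℕ :=
  Nat.card {A : Matrix (Fin m) (Fin n) K // A.rank = r ∧ ∀ p ∈ S, A p.1 p.2 = 0}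

theorem gl_zero (S : Finset (Fin 0 × Fin 0)) (K : Type) [Field K] : glZeros S K = slZeros S K := by
  unfold glZeros slZeros
  refine Nat.card_congr (Equiv.subtypeEquivRight fun A => ?_)
  simp

theorem gl_succ {n : ℕ} (S : Finset (Fin (n + 1) × Fin (n + 1))) (K : Type) [Field K] [Finite K] :
    (glZeros S K : ℤ) = ((Nat.card K : ℤ) - 1) * slZeros S K := by
  classical
  have := Fintype.ofFinite K
  let d : K → Fin (n + 1) → K := fun u i => if i = 0 then u else 1
  have hd : ∀ u, ∏ i, d u i = u := by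
    intro u
    rw [Finset.prod_ite_eq' Finset.univ (0 : Fin (n + 1)) (fun _ => u)]
    simp
  have hdd : ∀ (u v : K) (A : Matrix (Fin (n + 1)) (Fin (n + 1)) K), u * v = 1 →
      diagonal (d u) * (diagonal (d v) * A) = A := by
    intro u v A huv
    rw [← Matrix.mul_assoc, diagonal_mul_diagonal]
    have : (fun i => d u i * d v i) = 1 := by
      ext i
      simp only [d, Pi.one_apply]
      split_ifs
      · exact huv
      · exact mul_one 1
    rw [this]
    show diagonal (fun _ => (1 : K)) * A = A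
    rw [diagonal_one, Matrix.one_mul]
  have e : {A : Matrix (Fin (n + 1)) (Fin (n + 1)) K // A.det ≠ 0 ∧ ∀ p ∈ S, A p.1 p.2 = 0} ≃
      Kˣ × {A : Matrix (Fin (n + 1)) (Fin (n + 1)) K // A.det = 1 ∧ ∀ p ∈ S, A p.1 p.2 = 0} :=
    { toFun := fun A => (Units.mk0 A.1.det A.2.1, ⟨diagonal (d A.1.det⁻¹) * A.1, by
          rw [det_mul, det_diagonal, hd, inv_mul_cancel₀ A.2.1], fun p hp => by
          rw [diagonal_mul, A.2.2 p hp, mul_zero]⟩)
      invFun := fun x => ⟨diagonal (d (x.1 : K)) * x.2.1, by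
          rw [det_mul, det_diagonal, hd, x.2.2.1, mul_one]
          exact x.1.ne_zero, fun p hp => by
          rw [diagonal_mul, x.2.2.2 p hp, mul_zero]⟩
      left_inv := fun A => Subtype.ext (hdd _ _ _ (mul_inv_cancel₀ A.2.1))
      right_inv := fun x => by
        obtain ⟨u, B, hB⟩ := x
        have hdet : (diagonal (d (u : K)) * B).det = u := by
          rw [det_mul, det_diagonal, hd, hB.1, mul_one]
        refine Prod.ext (Units.ext hdet) (Subtype.ext ?_)
        show diagonal (d (diagonal (d (u : K)) * B).det⁻¹) * (diagonal (d (u : K)) * B) = B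
        rw [hdet]
        exact hdd _ _ _ (inv_mul_cancel₀ u.ne_zero) }
  unfold glZeros slZeros
  rw [Nat.card_congr e, Nat.card_prod, Nat.card_units]
  push_cast
  rw [Nat.cast_sub Nat.card_pos]
  simp

theorem mat_growth {m n : ℕ} (p : ∀ (K : Type) [Field K], Matrix (Fin m) (Fin n) K → Prop) :
    Growth (fun K _ => (Nat.card {A : Matrix (Fin m) (Fin n) K // p K A} : ℤ)) := by
  refine growth_of_le (n := m * n) fun K _ _ => ?_
  rw [abs_of_nonneg (by positivity)]
  have h1 : Nat.card {A : Matrix (Fin m) (Fin n) K // p K A} ≤ Nat.card (Matrix (Fin m) (Fin n) K) :=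
    Finite.card_subtype_le _
  have h2 : Nat.card (Matrix (Fin m) (Fin n) K) = Nat.card K ^ (m * n) := by
    show Nat.card (Fin m → Fin n → K) = _
    rw [Nat.card_fun, Nat.card_fun, Nat.card_eq_fintype_card (α := Fin m),
      Nat.card_eq_fintype_card (α := Fin n), ← pow_mul, mul_comm, Fintype.card_fin, Fintype.card_fin]
  rw [h2] at h1
  exact_mod_cast h1

section
variable {P : ℕ} {𝒞 : ((K : Type) → [Field K] → ℤ) → Prop} (h𝒞 : ClosedClass P 𝒞)
include h𝒞

theorem gl_of_sl (h : ∀ (n : ℕ) (S : Finset (Fin n × Fin n)), 𝒞 (fun K _ => (slZeros S K : ℤ)))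
    (n : ℕ) (S : Finset (Fin n × Fin n)) : 𝒞 (fun K _ => (glZeros S K : ℤ)) := by
  cases n with
  | zero => exact h𝒞.congr (h 0 S) fun K _ _ _ => by rw [gl_zero]
  | succ n =>
    refine h𝒞.congr (h𝒞.poly_mul (h (n + 1) S) (Polynomial.X - 1)) fun K _ _ _ => ?_
    rw [gl_succ]
    simp

theorem sl_of_gl (h : ∀ (n : ℕ) (S : Finset (Fin n × Fin n)), 𝒞 (fun K _ => (glZeros S K : ℤ)))
    (n : ℕ) (S : Finset (Fin n × Fin n)) : 𝒞 (fun K _ => (slZeros S K : ℤ)) := by
  cases n with
  | zero => exact h𝒞.congr (h 0 S) fun K _ _ _ => by rw [gl_zero]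
  | succ n =>
    refine h𝒞.div (mat_growth fun K _ A => A.det = 1 ∧ ∀ p ∈ S, A p.1 p.2 = 0) (Polynomial.X ^ 1 - 1)
      (.cyc 1 one_pos) (h𝒞.congr (h (n + 1) S) fun K _ _ _ => ?_)
    rw [gl_succ]
    simp [slZeros]

theorem inv_of_gl (h : ∀ (n : ℕ) (S : Finset (Fin n × Fin n)), 𝒞 (fun K _ => (glZeros S K : ℤ)))
    (ι : Type) [Fintype ι] [DecidableEq ι] (Z : ι → ι → Prop) : 𝒞 (fun K _ => (invN Z K : ℤ)) := by
  classical
  let e := Fintype.equivFin ι
  refine h𝒞.congr (h (Fintype.card ι) (Finset.univ.filter fun p => Z (e.symm p.1) (e.symm p.2)))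
    fun K _ _ _ => ?_
  rw [invN_congr e]
  unfold glZeros invN
  congr 1
  exact Nat.card_congr (Equiv.subtypeEquivRight fun A => by simp)

theorem rk_of_fin {r : ℕ} (h : ∀ (m n : ℕ) (S : Finset (Fin m × Fin n)),
      𝒞 (fun K _ => (rankZeros r S K : ℤ)))
    (ι κ : Type) [Fintype ι] [Fintype κ] (Z : ι → κ → Prop) : 𝒞 (fun K _ => (rkN Z r K : ℤ)) := by
  classical
  let e := Fintype.equivFin ι
  let f := Fintype.equivFin κ
  refine h𝒞.congr (h (Fintype.card ι) (Fintype.card κ)
    (Finset.univ.filter fun p => Z (e.symm p.1) (f.symm p.2))) fun K _ _ _ => ?_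
  rw [rkN_congr e f]
  unfold rankZeros rkN
  congr 1
  exact Nat.card_congr (Equiv.subtypeEquivRight fun A => by simp)

theorem rank_of_gl (h : ∀ (n : ℕ) (S : Finset (Fin n × Fin n)), 𝒞 (fun K _ => (glZeros S K : ℤ)))
    (r m n : ℕ) (S : Finset (Fin m × Fin n)) : 𝒞 (fun K _ => (rankZeros r S K : ℤ)) := by
  refine h𝒞.congr (rk_all h𝒞 (inv_of_gl h𝒞 h) (fun i j => (i, j) ∈ S) r) fun K _ _ _ => ?_
  unfold rankZeros rkN
  congr 1
  exact Nat.card_congr (Equiv.subtypeEquivRight fun A => by simp)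

theorem points_of_rank {r : ℕ} (hr : 3 ≤ r) (h : ∀ (m n : ℕ) (S : Finset (Fin m × Fin n)),
      𝒞 (fun K _ => (rankZeros r S K : ℤ))) {n s : ℕ} (f : Fin s → MvPolynomial (Fin n) ℤ) :
    𝒞 (fun K _ => (points f K : ℤ)) := by
  classical
  exact all_continue h𝒞 (zn_three h𝒞 hr (zn_all h𝒞 (rk_of_fin h𝒞 h))) f

/-- the numbers of solutions, for arbitrary finite index types -/
theorem points_any (h : ∀ (n r : ℕ) (f : Fin r → MvPolynomial (Fin n) ℤ),
      𝒞 (fun K _ => (points f K : ℤ)))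
    {σ ι : Type} [Fintype σ] [Fintype ι] (f : ι → MvPolynomial σ ℤ) :
    𝒞 (fun K _ => (points f K : ℤ)) := by
  classical
  let e := Fintype.equivFin σ
  let g := Fintype.equivFin ι
  refine h𝒞.congr (h (Fintype.card σ) (Fintype.card ι)
    (fun i => MvPolynomial.rename e (f (g.symm i)))) fun K _ _ _ => ?_
  unfold points
  congr 1
  refine Nat.card_congr ((e.arrowCongr (Equiv.refl K)).symm.subtypeEquiv fun x => ?_)
  constructor
  · intro h i
    have h1 : (MvPolynomial.aeval x) (MvPolynomial.rename e (f (g.symm (g i)))) = 0 := h (g i)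
    rw [g.symm_apply_apply, MvPolynomial.aeval_rename] at h1
    exact h1
  · intro h i
    rw [MvPolynomial.aeval_rename]
    exact h (g.symm i)

/-- the determinant of the generic matrix -/
noncomputable def genDet (n : ℕ) : MvPolynomial (Fin n × Fin n) ℤ :=
  (Matrix.of fun i j => MvPolynomial.X (i, j) : Matrix (Fin n) (Fin n) (MvPolynomial (Fin n × Fin n) ℤ)).det

omit h𝒞 in
theorem aeval_genDet {n : ℕ} {K : Type} [Field K] (x : Fin n × Fin n → K) :
    MvPolynomial.aeval x (genDet n) = (Matrix.of fun i j => x (i, j)).det := by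
  unfold genDet
  rw [AlgHom.map_det]
  congr 1
  ext i j
  simp

theorem sl_of_points (h : ∀ (n r : ℕ) (f : Fin r → MvPolynomial (Fin n) ℤ),
      𝒞 (fun K _ => (points f K : ℤ))) (n : ℕ) (S : Finset (Fin n × Fin n)) :
    𝒞 (fun K _ => (slZeros S K : ℤ)) := by
  classical
  let f : Unit ⊕ S → MvPolynomial (Fin n × Fin n) ℤ :=
    Sum.elim (fun _ => genDet n - 1) (fun p => MvPolynomial.X p.1)
  refine h𝒞.congr (points_any h𝒞 h f) fun K _ _ _ => ?_
  unfold points slZeros
  congr 1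
  refine Nat.card_congr ((Equiv.curry (Fin n) (Fin n) K).subtypeEquiv fun x => ?_)
  constructor
  · intro h
    refine ⟨?_, fun p hp => ?_⟩
    · have := h (Sum.inl ())
      simp only [f, Sum.elim_inl, map_sub, map_one, aeval_genDet] at this
      exact sub_eq_zero.1 this
    · have := h (Sum.inr ⟨p, hp⟩)
      simp only [f, Sum.elim_inr, MvPolynomial.aeval_X] at this
      exact this
  · rintro ⟨h1, h2⟩ (i | p)
    · simp only [f, Sum.elim_inl, map_sub, map_one, aeval_genDet]
      exact sub_eq_zero.2 h1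
    · simp only [f, Sum.elim_inr, MvPolynomial.aeval_X]
      exact h2 p.1 p.2

/-- **The circle of implications.** -/
theorem tfae_class {r : ℕ} (hr : 3 ≤ r) : List.TFAE [
    ∀ (n s : ℕ) (f : Fin s → MvPolynomial (Fin n) ℤ), 𝒞 (fun K _ => (points f K : ℤ)),
    ∀ (n : ℕ) (S : Finset (Fin n × Fin n)), 𝒞 (fun K _ => (slZeros S K : ℤ)),
    ∀ (n : ℕ) (S : Finset (Fin n × Fin n)), 𝒞 (fun K _ => (glZeros S K : ℤ)),
    ∀ (m n : ℕ) (S : Finset (Fin m × Fin n)), 𝒞 (fun K _ => (rankZeros r S K : ℤ))] := by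
  tfae_have 1 → 2 := fun h => sl_of_points h𝒞 h
  tfae_have 2 → 3 := fun h => gl_of_sl h𝒞 h
  tfae_have 3 → 4 := fun h m n S => rank_of_gl h𝒞 h r m n S
  tfae_have 4 → 1 := fun h n s f => points_of_rank h𝒞 hr h f
  tfae_finish

end

/-- The functions `N` with `B(q) N(K) = ∑ i, A i (q) * #{matrices in SL(K) with zeros in S i}`, with
`B` of the form `q ^ a ∏ (q ^ b - 1)`. -/
def GenSL (N : (K : Type) → [Field K] → ℤ) : Prop :=
  ∃ (B : Polynomial ℤ) (ι : Type) (_ : Fintype ι) (A : ι → Polynomial ℤ) (k : ι → ℕ)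
    (S : ∀ i, Finset (Fin (k i) × Fin (k i))), Den B ∧ ∀ (K : Type) [Field K] [Finite K],
      B.eval (Nat.card K : ℤ) * N K = ∑ i, (A i).eval (Nat.card K : ℤ) * (slZeros (S i) K : ℤ)

theorem ringChar_pos (K : Type) [Field K] [Finite K] : 0 < ringChar K := by
  have := CharP.char_ne_zero_of_finite K (ringChar K)
  omega

theorem closed_gen : ClosedClass 0 GenSL where
  congr := by
    rintro N N' ⟨B, ι, _, A, k, S, hB, h⟩ he
    exact ⟨B, ι, inferInstance, A, k, S, hB, fun K _ _ => by rw [← he K (ringChar_pos K), h]⟩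
  zero := ⟨1, Empty, inferInstance, Empty.elim, Empty.elim, fun i => i.elim, .one, fun K _ _ => by simp⟩
  add := by
    rintro N N' ⟨B, ι, _, A, k, S, hB, h⟩ ⟨B', ι', _, A', k', S', hB', h'⟩
    refine ⟨B * B', ι ⊕ ι', inferInstance, Sum.elim (fun i => B' * A i) (fun i => B * A' i),
      Sum.elim k k', fun i => match i with
        | .inl i => S i
        | .inr i => S' i, .mul hB hB', fun K _ _ => ?_⟩
    rw [Fintype.sum_sum_type]
    simp only [Sum.elim_inl, Sum.elim_inr, Polynomial.eval_mul]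
    have e1 := h K
    have e2 := h' K
    simp_rw [mul_assoc, ← Finset.mul_sum]
    have e1' : ∑ i, (A i).eval (Nat.card K : ℤ) * (slZeros (S i) K : ℤ) = B.eval (Nat.card K : ℤ) * N K :=
      e1.symm
    have e2' : ∑ i, (A' i).eval (Nat.card K : ℤ) * (slZeros (S' i) K : ℤ) =
      B'.eval (Nat.card K : ℤ) * N' K := e2.symm
    show _ = B'.eval (Nat.card K : ℤ) * ∑ i, (A i).eval (Nat.card K : ℤ) * (slZeros (S i) K : ℤ) +
      B.eval (Nat.card K : ℤ) * ∑ i, (A' i).eval (Nat.card K : ℤ) * (slZeros (S' i) K : ℤ)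
    rw [e1', e2']
    ring
  neg := by
    rintro N ⟨B, ι, _, A, k, S, hB, h⟩
    refine ⟨B, ι, inferInstance, fun i => - A i, k, S, hB, fun K _ _ => ?_⟩
    rw [mul_neg, h K, ← Finset.sum_neg_distrib]
    refine Finset.sum_congr rfl fun i _ => ?_
    rw [Polynomial.eval_neg]
    ring
  poly_mul := by
    rintro N ⟨B, ι, _, A, k, S, hB, h⟩ C
    refine ⟨B, ι, inferInstance, fun i => C * A i, k, S, hB, fun K _ _ => ?_⟩
    rw [mul_left_comm, h K, Finset.mul_sum]
    refine Finset.sum_congr rfl fun i _ => ?_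
    rw [Polynomial.eval_mul]
    ring
  div := by
    rintro N - C hC ⟨B, ι, _, A, k, S, hB, h⟩
    refine ⟨B * C, ι, inferInstance, A, k, S, .mul hB hC, fun K _ _ => ?_⟩
    rw [Polynomial.eval_mul, mul_assoc, h K]

/-- **Every number of solutions is expressed by matrices with prescribed zeros.** -/
theorem points_formula {n s : ℕ} (f : Fin s → MvPolynomial (Fin n) ℤ) :
    ∃ (a t m : ℕ) (b : Fin t → ℕ) (A : Fin m → Polynomial ℤ) (k : Fin m → ℕ)
      (S : ∀ i, Finset (Fin (k i) × Fin (k i))), (∀ j, 0 < b j) ∧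
      ∀ (K : Type) [Field K] [Finite K],
        ((Nat.card K : ℤ) ^ a * ∏ j, ((Nat.card K : ℤ) ^ b j - 1)) * (points f K : ℤ) =
          ∑ i, (A i).eval (Nat.card K : ℤ) * (slZeros (S i) K : ℤ) := by
  have h0 : (∀ (n : ℕ) (S : Finset (Fin n × Fin n)), GenSL (fun K _ => (slZeros S K : ℤ))) →
      ∀ (n s : ℕ) (f : Fin s → MvPolynomial (Fin n) ℤ), GenSL (fun K _ => (points f K : ℤ)) :=
    ((tfae_class closed_gen (le_refl 3)).out 1 0).1
  have h1 := h0 (fun n S => ⟨1, Unit, inferInstance,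
    fun _ => 1, fun _ => n, fun _ => S, .one, fun K _ _ => by simp⟩) n s f
  obtain ⟨B, ι, _, A, k, S, hB, h⟩ := h1
  obtain ⟨a, t, b, hb, rfl⟩ := hB.form
  let e := Fintype.equivFin ι
  refine ⟨a, t, Fintype.card ι, b, fun i => A (e.symm i), fun i => k (e.symm i),
    fun i => S (e.symm i), hb, fun K _ _ => ?_⟩
  have h2 := h K
  rw [Polynomial.eval_mul, Polynomial.eval_pow, Polynomial.eval_X, Polynomial.eval_prod] at h2
  simp only [Polynomial.eval_sub, Polynomial.eval_pow, Polynomial.eval_X, Polynomial.eval_one] at h2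
  rw [h2]
  exact (Equiv.sum_comp e.symm fun i => (A i).eval (Nat.card K : ℤ) * (slZeros (S i) K : ℤ)).symm

end Pool.Agent.Helper90.PZ
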