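import Pool.Agent.Helper90.PZ.Cls

/-!
# From invertible matrices with prescribed zeros to matrices of any rank with prescribed zeros
-/

set_option autoImplicit false

namespace Pool.Agent.Helper90.PZ

open Matrix Pool.Agent.E8helper17.FZ

/-- matrices with prescribed zeros, determinant different from zero -/
noncomputable def invN {ι : Type} [Fintype ι] [DecidableEq ι] (Z : ι → ι → Prop) (K : Type) [Field K] : ℕ :=
  Nat.card {M : Matrix ι ι K // M.det ≠ 0 ∧ ∀ i j, Z i j → M i j = 0}

/-- matrices with prescribed zeros of rank `r` -/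
noncomputable def rkN {ι κ : Type} [Fintype ι] [Fintype κ] (Z : ι → κ → Prop) (r : ℕ) (K : Type)
    [Field K] : ℕ :=
  Nat.card {A : Matrix ι κ K // A.rank = r ∧ ∀ i j, Z i j → A i j = 0}

theorem invN_congr {ι ι' : Type} [Fintype ι] [DecidableEq ι] [Fintype ι'] [DecidableEq ι'] (e : ι ≃ ι')
    (Z : ι → ι → Prop) (K : Type) [Field K] :
    invN Z K = invN (fun i j => Z (e.symm i) (e.symm j)) K := by
  unfold invN
  refine Nat.card_congr ((Matrix.reindex e e).subtypeEquiv fun M => ?_)
  rw [det_reindex_self]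
  refine and_congr_right fun _ => ?_
  constructor
  · intro h i j hij
    exact h _ _ hij
  · intro h i j hij
    have := h (e i) (e j) (by simpa using hij)
    simpa using this

theorem rkN_congr {ι ι' κ κ' : Type} [Fintype ι] [Fintype ι'] [Fintype κ] [Fintype κ'] (e : ι ≃ ι')
    (f : κ ≃ κ') (Z : ι → κ → Prop) (r : ℕ) (K : Type) [Field K] :
    rkN Z r K = rkN (fun i j => Z (e.symm i) (f.symm j)) r K := by
  unfold rkN
  refine Nat.card_congr ((Matrix.reindex e f).subtypeEquiv fun M => ?_)
  rw [rank_reindex]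
  refine and_congr_right fun _ => ?_
  constructor
  · intro h i j hij
    exact h _ _ hij
  · intro h i j hij
    have := h (e i) (f j) (by simpa using hij)
    simpa using this

theorem rkN_growth {ι κ : Type} [Fintype ι] [Fintype κ] (Z : ι → κ → Prop) (r : ℕ) :
    Growth (fun K _ => (rkN Z r K : ℤ)) := by
  refine growth_of_le (n := Fintype.card ι * Fintype.card κ) fun K _ _ => ?_
  rw [abs_of_nonneg (by positivity)]
  have h1 : rkN Z r K ≤ Nat.card (Matrix ι κ K) := Finite.card_subtype_le _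
  have h2 : Nat.card (Matrix ι κ K) = Nat.card K ^ (Fintype.card ι * Fintype.card κ) := by
    show Nat.card (ι → κ → K) = _
    rw [Nat.card_fun, Nat.card_fun, Nat.card_eq_fintype_card (α := ι),
      Nat.card_eq_fintype_card (α := κ), ← pow_mul, mul_comm]
  rw [h2] at h1
  exact_mod_cast h1

open Polynomial in
/-- `∏_{i < m} (X ^ k - X ^ i)` -/
noncomputable def gp (k m : ℕ) : Polynomial ℤ := ∏ i ∈ Finset.range m, (X ^ k - X ^ i)

open Polynomial in
theorem gp_den (k : ℕ) : Den (gp k k) := by
  unfold gp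
  refine Den.prod _ _ fun i hi => ?_
  have : i < k := Finset.mem_range.1 hi
  have e : (X ^ k - X ^ i : Polynomial ℤ) = X ^ i * (X ^ (k - i) - 1) := by
    rw [mul_sub, mul_one, ← pow_add, Nat.add_sub_cancel' this.le]
  rw [e]
  exact .mul (Den.X.pow i) (.cyc _ (by omega))

theorem gp_eval (k m : ℕ) (q : ℤ) : (gp k m).eval q = ∏ i ∈ Finset.range m, (q ^ k - q ^ i) := by
  unfold gp
  simp [Polynomial.eval_prod]

theorem gp_zero {k m : ℕ} (h : k < m) : gp k m = 0 := by
  unfold gp
  exact Finset.prod_eq_zero (Finset.mem_range.2 h) (sub_self _)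

variable {P : ℕ} {𝒞 : ((K : Type) → [Field K] → ℤ) → Prop} (h𝒞 : ClosedClass P 𝒞)
include h𝒞

/-- all the ranks of square matrices -/
theorem rk_square (hInv : ∀ (ι : Type) [Fintype ι] [DecidableEq ι] (Z : ι → ι → Prop),
      𝒞 (fun K _ => (invN Z K : ℤ)))
    {ι : Type} [Fintype ι] [DecidableEq ι] (Z : ι → ι → Prop) (k : ℕ) (hk : k ≤ Fintype.card ι) :
    𝒞 (fun K _ => (rkN Z (Fintype.card ι - k) K : ℤ)) := by
  classical
  set n := Fintype.card ι with hn
  induction k using Nat.strong_induction_on with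
  | _ k ih =>
    -- the pattern with a border
    let Z' : ι ⊕ Fin k → ι ⊕ Fin k → Prop := fun a b => ∃ i j, a = Sum.inl i ∧ b = Sum.inl j ∧ Z i j
    have h0 := hInv (ι ⊕ Fin k) Z'
    let E : Polynomial ℤ := (Polynomial.X ^ k) ^ n * gp k k
    let c : ℕ → Polynomial ℤ := fun r => (Polynomial.X ^ k) ^ r * gp k (n - r)
    have hE : Den E := .mul ((Den.X.pow k).pow n) (gp_den k)
    have hc : Den (c (n - k)) := by
      have : n - (n - k) = k := by omega
      show Den ((Polynomial.X ^ k) ^ (n - k) * gp k (n - (n - k)))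
      rw [this]
      exact .mul ((Den.X.pow k).pow _) (gp_den k)
    have key : ∀ (K : Type) [Field K] [Finite K], (invN Z' K : ℤ) = E.eval (Nat.card K : ℤ) *
        ∑ r ∈ Finset.range (n + 1), (c r).eval (Nat.card K : ℤ) * (rkN Z r K : ℤ) := by
      intro K _ _
      have h1 := card_border (K := K) (ι := ι) (κ := Fin k) Z
      rw [Fintype.card_fin] at h1
      have h2 : invN Z' K = Nat.card {M : Matrix (ι ⊕ Fin k) (ι ⊕ Fin k) K // M.det ≠ 0 ∧
        ∀ i j, Z i j → M (Sum.inl i) (Sum.inl j) = 0} := by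
        unfold invN
        refine Nat.card_congr (Equiv.subtypeEquivRight fun M => ?_)
        refine and_congr_right fun _ => ?_
        constructor
        · intro h i j hij
          exact h _ _ ⟨i, j, rfl, rfl, hij⟩
        · rintro h _ _ ⟨i, j, rfl, rfl, hij⟩
          exact h i j hij
      rw [h2, h1]
      simp only [E, c, Polynomial.eval_mul, Polynomial.eval_pow, Polynomial.eval_X, gp_eval]
      rfl
    have hsum : 𝒞 (fun K _ => ∑ r ∈ Finset.Ioc (n - k) n,
        (E * c r).eval (Nat.card K : ℤ) * (rkN Z r K : ℤ)) := by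
      refine h𝒞.sum _ fun r hr => ?_
      rw [Finset.mem_Ioc] at hr
      have h1 := ih (n - r) (by omega) (by omega)
      have h2 : n - (n - r) = r := by omega
      rw [h2] at h1
      exact h𝒞.poly_mul h1 _
    refine h𝒞.div (rkN_growth Z _) (E * c (n - k)) (.mul hE hc) ?_
    refine h𝒞.congr (h𝒞.add h0 (h𝒞.neg hsum)) fun K _ _ _ => ?_
    rw [key K, Finset.mul_sum]
    have hsplit : Finset.range (n + 1) = insert (n - k) (Finset.range (n - k) ∪ Finset.Ioc (n - k) n) := by
      ext r
      simp only [Finset.mem_range, Finset.mem_insert, Finset.mem_union, Finset.mem_Ioc]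
      omega
    rw [hsplit, Finset.sum_insert (by simp), Finset.sum_union (by
      rw [Finset.disjoint_left]
      intro r h1 h2
      rw [Finset.mem_range] at h1
      rw [Finset.mem_Ioc] at h2
      omega)]
    rw [Finset.sum_eq_zero (s := Finset.range (n - k)) (fun r hr => by
      rw [Finset.mem_range] at hr
      show _ * (((Polynomial.X ^ k) ^ r * gp k (n - r)).eval _ * _) = 0
      rw [gp_zero (by omega)]
      simp)]
    have hs : ∑ x ∈ Finset.Ioc (n - k) n, Polynomial.eval (Nat.card K : ℤ) E *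
        (Polynomial.eval (Nat.card K : ℤ) (c x) * (rkN Z x K : ℤ)) =
        ∑ x ∈ Finset.Ioc (n - k) n, Polynomial.eval (Nat.card K : ℤ) (E * c x) * (rkN Z x K : ℤ) := by
      refine Finset.sum_congr rfl fun r _ => ?_
      rw [Polynomial.eval_mul (p := E) (q := c r), mul_assoc]
    rw [zero_add, hs, Polynomial.eval_mul (p := E) (q := c (n - k))]
    generalize Polynomial.eval (Nat.card K : ℤ) E = u
    generalize Polynomial.eval (Nat.card K : ℤ) (c (n - k)) = v
    ring

omit h𝒞 in
theorem rank_corner {K ι κ : Type} [Field K] [Fintype ι] [Fintype κ] [DecidableEq ι] [DecidableEq κ]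
    (A : Matrix ι κ K) : (fromBlocks 0 A 0 0 : Matrix (ι ⊕ κ) (ι ⊕ κ) K).rank = A.rank := by
  apply le_antisymm
  · have : (fromBlocks 0 A 0 0 : Matrix (ι ⊕ κ) (ι ⊕ κ) K) =
        fromRows (1 : Matrix ι ι K) (0 : Matrix κ ι K) * (A * fromCols (0 : Matrix κ ι K) 1) := by
      rw [fromRows_mul, mul_fromCols]
      ext (i | i) (j | j) <;> simp
    rw [this]
    exact (rank_mul_le_right _ _).trans (rank_mul_le_left _ _)
  · exact rank_submatrix_le (fromBlocks 0 A 0 0 : Matrix (ι ⊕ κ) (ι ⊕ κ) K) Sum.inl Sum.inr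

theorem rk_all (hInv : ∀ (ι : Type) [Fintype ι] [DecidableEq ι] (Z : ι → ι → Prop),
      𝒞 (fun K _ => (invN Z K : ℤ)))
    {ι κ : Type} [Fintype ι] [Fintype κ] (Z : ι → κ → Prop) (r : ℕ) :
    𝒞 (fun K _ => (rkN Z r K : ℤ)) := by
  classical
  let Z' : ι ⊕ κ → ι ⊕ κ → Prop := fun a b => ∀ i j, a = Sum.inl i → b = Sum.inr j → Z i j
  have hZ' : ∀ (K : Type) [Field K] [Finite K], rkN Z' r K = rkN Z r K := by
    intro K _ _
    unfold rkN
    have hM : ∀ M : Matrix (ι ⊕ κ) (ι ⊕ κ) K, (∀ a b, Z' a b → M a b = 0) →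
        fromBlocks 0 (M.submatrix Sum.inl Sum.inr) 0 0 = M := by
      intro M hM
      ext (i | i) (j | j)
      · exact (hM _ _ (fun _ _ _ h => absurd h (by simp))).symm
      · rfl
      · exact (hM _ _ (fun _ _ _ h => absurd h (by simp))).symm
      · exact (hM _ _ (fun _ _ h _ => absurd h (by simp))).symm
    refine Nat.card_congr
      { toFun := fun M => ⟨M.1.submatrix Sum.inl Sum.inr, by
            rw [← rank_corner, hM M.1 M.2.2]
            exact M.2.1, fun i j hij => M.2.2 _ _ (by
          rintro i' j' h1 h2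
          rw [Sum.inl.inj h1.symm, Sum.inr.inj h2.symm]
          exact hij)⟩
        invFun := fun A => ⟨fromBlocks 0 A.1 0 0, by rw [rank_corner]; exact A.2.1, by
          rintro (i | i) (j | j) h
          · rfl
          · exact A.2.2 i j (h i j rfl rfl)
          · rfl
          · rfl⟩
        left_inv := fun M => Subtype.ext (hM M.1 M.2.2)
        right_inv := fun A => Subtype.ext rfl }
  by_cases hr : r ≤ Fintype.card (ι ⊕ κ)
  · have h1 := rk_square h𝒞 hInv Z' (Fintype.card (ι ⊕ κ) - r) (by omega)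
    rw [Nat.sub_sub_self hr] at h1
    exact h𝒞.congr h1 fun K _ _ _ => by
      rw [hZ' K]
  · refine h𝒞.congr h𝒞.zero fun K _ _ _ => ?_
    rw [← hZ' K]
    unfold rkN
    have : IsEmpty {A : Matrix (ι ⊕ κ) (ι ⊕ κ) K // A.rank = r ∧ ∀ i j, Z' i j → A i j = 0} := by
      constructor
      rintro ⟨A, h, _⟩
      exact hr (h ▸ A.rank_le_card_height)
    rw [Nat.card_of_isEmpty]
    rfl

/-- prescribed zeros `Z` and prescribed nonzero entries `T` -/
noncomputable def znN {ι κ : Type} [Fintype ι] [Fintype κ] (Z : ι → κ → Prop) (T : ι → κ → Prop) (r : ℕ)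
    (K : Type) [Field K] : ℕ :=
  Nat.card {A : Matrix ι κ K // A.rank = r ∧ (∀ i j, Z i j → A i j = 0) ∧ ∀ i j, T i j → A i j ≠ 0}

theorem zn_fin {r : ℕ} (hrk : ∀ (ι κ : Type) [Fintype ι] [Fintype κ] (Z : ι → κ → Prop),
      𝒞 (fun K _ => (rkN Z r K : ℤ)))
    {ι κ : Type} [Fintype ι] [Fintype κ] [DecidableEq ι] [DecidableEq κ] (T : Finset (ι × κ)) :
    ∀ (Z : ι → κ → Prop), 𝒞 (fun K _ => (znN Z (fun i j => (i, j) ∈ T) r K : ℤ)) := by
  classical
  induction T using Finset.induction_on with
  | empty =>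
    intro Z
    refine h𝒞.congr (hrk ι κ Z) fun K _ _ _ => ?_
    unfold rkN znN
    congr 1
    exact Nat.card_congr (Equiv.subtypeEquivRight fun A => by simp)
  | insert t T ht ih =>
    intro Z
    refine h𝒞.congr (h𝒞.add (ih Z) (h𝒞.neg (ih (fun i j => Z i j ∨ (i, j) = t)))) fun K _ _ _ => ?_
    unfold znN
    have h : Nat.card {A : Matrix ι κ K // A.rank = r ∧ (∀ i j, Z i j → A i j = 0) ∧
          ∀ i j, (i, j) ∈ T → A i j ≠ 0} =
        Nat.card {A : Matrix ι κ K // A.rank = r ∧ (∀ i j, Z i j → A i j = 0) ∧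
          ∀ i j, (i, j) ∈ insert t T → A i j ≠ 0} +
        Nat.card {A : Matrix ι κ K // A.rank = r ∧ (∀ i j, (Z i j ∨ (i, j) = t) → A i j = 0) ∧
          ∀ i j, (i, j) ∈ T → A i j ≠ 0} := by
      have := Fintype.ofFinite K
      rw [Nat.card_eq_fintype_card, Nat.card_eq_fintype_card, Nat.card_eq_fintype_card,
        Fintype.card_subtype, Fintype.card_subtype, Fintype.card_subtype,
        ← Finset.card_union_of_disjoint]
      · congr 1
        ext A
        simp only [Finset.mem_filter, Finset.mem_univ, true_and, Finset.mem_union, Finset.mem_insert]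
        constructor
        · rintro ⟨h1, h2, h3⟩
          by_cases h0 : A t.1 t.2 = 0
          · right
            refine ⟨h1, ?_, h3⟩
            rintro i j (h | h)
            · exact h2 i j h
            · rw [← h] at h0; exact h0
          · left
            refine ⟨h1, h2, ?_⟩
            rintro i j (h | h)
            · rw [← h] at h0; exact h0
            · exact h3 i j h
        · rintro (⟨h1, h2, h3⟩ | ⟨h1, h2, h3⟩)
          · exact ⟨h1, h2, fun i j h => h3 i j (Or.inr h)⟩
          · exact ⟨h1, fun i j h => h2 i j (Or.inl h), h3⟩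
      · rw [Finset.disjoint_left]
        intro A h1 h2
        simp only [Finset.mem_filter, Finset.mem_univ, true_and, Finset.mem_insert] at h1 h2
        exact h1.2.2 t.1 t.2 (Or.inl rfl) (h2.2.1 t.1 t.2 (Or.inr rfl))
    rw [h]
    push_cast
    ring

theorem zn_all {r : ℕ} (hrk : ∀ (ι κ : Type) [Fintype ι] [Fintype κ] (Z : ι → κ → Prop),
      𝒞 (fun K _ => (rkN Z r K : ℤ)))
    (ι κ : Type) [Fintype ι] [Fintype κ] (Z T : ι → κ → Prop) :
    𝒞 (fun K _ => (znN Z T r K : ℤ)) := by
  classical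
  have := zn_fin h𝒞 hrk (Finset.univ.filter fun t : ι × κ => T t.1 t.2) Z
  refine h𝒞.congr this fun K _ _ _ => ?_
  unfold znN
  congr 1
  exact Nat.card_congr (Equiv.subtypeEquivRight fun A => by simp)

omit h𝒞 in
theorem rank_add_one {K ι κ : Type} [Field K] [Fintype ι] [Fintype κ] [DecidableEq κ] {t : K}
    (ht : t ≠ 0) (A : Matrix ι κ K) :
    (fromBlocks (Matrix.of fun _ _ : Unit => t) 0 0 A).rank = A.rank + 1 := by
  classical
  set M := fromBlocks (Matrix.of fun _ _ : Unit => t) (0 : Matrix Unit κ K) (0 : Matrix ι Unit K) A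
    with hM
  let f : (κ → K) →ₗ[K] (Unit ⊕ κ → K) :=
    { toFun := fun y => Sum.elim (fun _ => 0) y
      map_add' := fun y z => by ext (i | i) <;> simp
      map_smul' := fun c y => by ext (i | i) <;> simp }
  have hf : Function.Injective f := by
    intro y z hyz
    ext i
    exact congrFun hyz (Sum.inr i)
  have hker : LinearMap.ker M.mulVecLin = (LinearMap.ker A.mulVecLin).map f := by
    ext v
    rw [Submodule.mem_map, LinearMap.mem_ker, mulVecLin_apply]
    have hv : M *ᵥ v = Sum.elim (fun _ => t * v (Sum.inl ())) (A *ᵥ (v ∘ Sum.inr)) := by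
      rw [hM, fromBlocks_mulVec]
      ext (i | i)
      · simp [mulVec, dotProduct]
      · simp
    rw [hv]
    constructor
    · intro h
      have h1 : t * v (Sum.inl ()) = 0 := congrFun h (Sum.inl ())
      have h2 : v (Sum.inl ()) = 0 := (mul_eq_zero.1 h1).resolve_left ht
      refine ⟨v ∘ Sum.inr, ?_, ?_⟩
      · rw [LinearMap.mem_ker, mulVecLin_apply]
        ext i
        exact congrFun h (Sum.inr i)
      · ext (i | i)
        · exact h2.symm
        · rfl
    · rintro ⟨y, hy, rfl⟩
      rw [LinearMap.mem_ker, mulVecLin_apply] at hy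
      have e : (f y) ∘ Sum.inr = y := rfl
      rw [e, hy]
      ext (i | i)
      · show t * (0 : K) = 0
        rw [mul_zero]
      · rfl
  have h1 := M.mulVecLin.finrank_range_add_finrank_ker
  have h2 := A.mulVecLin.finrank_range_add_finrank_ker
  have h3 : Module.finrank K (LinearMap.ker M.mulVecLin) = Module.finrank K (LinearMap.ker A.mulVecLin) := by
    rw [hker]
    exact (LinearEquiv.finrank_eq (Submodule.equivMapOfInjective f hf _)).symm
  rw [Module.finrank_fintype_fun_eq_card] at h1 h2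
  rw [Fintype.card_sum, Fintype.card_unit] at h1
  show Module.finrank K (LinearMap.range M.mulVecLin) = Module.finrank K (LinearMap.range A.mulVecLin) + 1
  omega

omit h𝒞 in
theorem znN_growth {ι κ : Type} [Fintype ι] [Fintype κ] (Z T : ι → κ → Prop) (r : ℕ) :
    Growth (fun K _ => (znN Z T r K : ℤ)) := by
  refine growth_of_le (n := Fintype.card ι * Fintype.card κ) fun K _ _ => ?_
  rw [abs_of_nonneg (by positivity)]
  have h1 : znN Z T r K ≤ Nat.card (Matrix ι κ K) := Finite.card_subtype_le _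
  have h2 : Nat.card (Matrix ι κ K) = Nat.card K ^ (Fintype.card ι * Fintype.card κ) := by
    show Nat.card (ι → κ → K) = _
    rw [Nat.card_fun, Nat.card_fun, Nat.card_eq_fintype_card (α := ι),
      Nat.card_eq_fintype_card (α := κ), ← pow_mul, mul_comm]
  rw [h2] at h1
  exact_mod_cast h1

/-- from rank `r + 1` to rank `r` -/
theorem zn_down {r : ℕ} (H : ∀ (ι κ : Type) [Fintype ι] [Fintype κ] (Z T : ι → κ → Prop),
      𝒞 (fun K _ => (znN Z T (r + 1) K : ℤ)))
    (ι κ : Type) [Fintype ι] [Fintype κ] (Z T : ι → κ → Prop) : 𝒞 (fun K _ => (znN Z T r K : ℤ)) := by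
  classical
  let Z' : Unit ⊕ ι → Unit ⊕ κ → Prop := fun a b => match a, b with
    | .inl _, .inl _ => False
    | .inl _, .inr _ => True
    | .inr _, .inl _ => True
    | .inr i, .inr j => Z i j
  let T' : Unit ⊕ ι → Unit ⊕ κ → Prop := fun a b => match a, b with
    | .inl _, .inl _ => True
    | .inl _, .inr _ => False
    | .inr _, .inl _ => False
    | .inr i, .inr j => T i j
  refine h𝒞.div (znN_growth Z T r) (Polynomial.X ^ 1 - 1) (.cyc 1 one_pos)
    (h𝒞.congr (H (Unit ⊕ ι) (Unit ⊕ κ) Z' T') fun K _ _ _ => ?_)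
  have := Fintype.ofFinite K
  have hM : ∀ M : Matrix (Unit ⊕ ι) (Unit ⊕ κ) K, (∀ a b, Z' a b → M a b = 0) →
      fromBlocks (Matrix.of fun _ _ : Unit => M (Sum.inl ()) (Sum.inl ())) 0 0
        (M.submatrix Sum.inr Sum.inr) = M := by
    intro M hM
    ext (i | i) (j | j)
    · rfl
    · exact (hM _ _ trivial).symm
    · exact (hM _ _ trivial).symm
    · rfl
  have e : {A : Matrix (Unit ⊕ ι) (Unit ⊕ κ) K // A.rank = r + 1 ∧ (∀ i j, Z' i j → A i j = 0) ∧
      ∀ i j, T' i j → A i j ≠ 0} ≃
      Kˣ × {A : Matrix ι κ K // A.rank = r ∧ (∀ i j, Z i j → A i j = 0) ∧ ∀ i j, T i j → A i j ≠ 0} :=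
    { toFun := fun M => (Units.mk0 (M.1 (Sum.inl ()) (Sum.inl ())) (M.2.2.2 _ _ trivial),
        ⟨M.1.submatrix Sum.inr Sum.inr, by
          have h1 := M.2.1
          rw [← hM M.1 M.2.2.1, rank_add_one (M.2.2.2 (Sum.inl ()) (Sum.inl ()) trivial)] at h1
          omega, fun i j h => M.2.2.1 (Sum.inr i) (Sum.inr j) h,
          fun i j h => M.2.2.2 (Sum.inr i) (Sum.inr j) h⟩)
      invFun := fun x => ⟨fromBlocks (Matrix.of fun _ _ : Unit => (x.1 : K)) 0 0 x.2.1, by
        refine ⟨by rw [rank_add_one x.1.ne_zero, x.2.2.1], ?_, ?_⟩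
        · rintro (i | i) (j | j) h
          · exact h.elim
          · rfl
          · rfl
          · exact x.2.2.2.1 i j h
        · rintro (i | i) (j | j) h
          · exact x.1.ne_zero
          · exact h.elim
          · exact h.elim
          · exact x.2.2.2.2 i j h⟩
      left_inv := fun M => Subtype.ext (hM M.1 M.2.2.1)
      right_inv := fun x => by
        obtain ⟨t, A, hA⟩ := x
        refine Prod.ext (Units.ext rfl) (Subtype.ext rfl) }
  unfold znN
  rw [Nat.card_congr e, Nat.card_prod, Nat.card_units]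
  push_cast
  rw [Nat.cast_sub Nat.card_pos]
  simp

/-- from rank `r ≥ 3` to rank three -/
theorem zn_three {r : ℕ} (hr : 3 ≤ r) (H : ∀ (ι κ : Type) [Fintype ι] [Fintype κ] (Z T : ι → κ → Prop),
      𝒞 (fun K _ => (znN Z T r K : ℤ)))
    (ι κ : Type) [Fintype ι] [Fintype κ] (Z T : ι → κ → Prop) : 𝒞 (fun K _ => (znN Z T 3 K : ℤ)) := by
  induction r, hr using Nat.le_induction with
  | base => exact H ι κ Z T
  | succ m _ ih => exact ih (zn_down h𝒞 H)

end Pool.Agent.Helper90.PZ
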